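import Mathlib

/-!
Parametrically definable predicates of commutative algebras over `P` (formulas of the language of
rings with constants from `P`).
-/

set_option autoImplicit false

namespace Pool.Agent.R619.PL

open FirstOrder FirstOrder.Ring

variable {P : Type} [Field P] {R : Type} [CommRing R] [Algebra P R] [CompatibleRing R]

variable (P) in
/-- term functions -/
def TDef {α : Type} (f : (α → R) → R) : Prop :=
  ∃ t : FirstOrder.Language.ring.Term (α ⊕ P),
    ∀ v : α → R, t.realize (Sum.elim v (algebraMap P R)) = f v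

variable (P) in
/-- definable predicates -/
def Def {α : Type} (S : (α → R) → Prop) : Prop :=
  ∃ φ : FirstOrder.Language.ring.Formula (α ⊕ P),
    ∀ v : α → R, φ.Realize (Sum.elim v (algebraMap P R)) ↔ S v

section terms

variable {α : Type}

theorem TDef.var (i : α) : TDef P (fun v : α → R => v i) :=
  ⟨FirstOrder.Language.Term.var (Sum.inl i), fun v => by simp⟩

theorem TDef.const (c : P) : TDef P (fun _ : α → R => algebraMap P R c) :=
  ⟨FirstOrder.Language.Term.var (Sum.inr c), fun v => by simp⟩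

theorem TDef.zero : TDef P (fun _ : α → R => (0 : R)) := ⟨0, fun v => by simp⟩

theorem TDef.one : TDef P (fun _ : α → R => (1 : R)) := ⟨1, fun v => by simp⟩

theorem TDef.add {f g : (α → R) → R} (hf : TDef P f) (hg : TDef P g) :
    TDef P (fun v => f v + g v) := by
  obtain ⟨s, hs⟩ := hf
  obtain ⟨t, ht⟩ := hg
  exact ⟨s + t, fun v => by simp [hs, ht]⟩

theorem TDef.mul {f g : (α → R) → R} (hf : TDef P f) (hg : TDef P g) :
    TDef P (fun v => f v * g v) := by
  obtain ⟨s, hs⟩ := hf
  obtain ⟨t, ht⟩ := hg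
  exact ⟨s * t, fun v => by simp [hs, ht]⟩

theorem TDef.neg {f : (α → R) → R} (hf : TDef P f) : TDef P (fun v => - f v) := by
  obtain ⟨s, hs⟩ := hf
  exact ⟨-s, fun v => by simp [hs]⟩

theorem TDef.sub {f g : (α → R) → R} (hf : TDef P f) (hg : TDef P g) :
    TDef P (fun v => f v - g v) := by
  simp only [sub_eq_add_neg]
  exact hf.add hg.neg

theorem TDef.sum {ι : Type} (s : Finset ι) {f : ι → (α → R) → R} (hf : ∀ i, TDef P (f i)) :
    TDef P (fun v => ∑ i ∈ s, f i v) := by
  classical
  induction s using Finset.induction_on with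
  | empty => simpa using TDef.zero
  | insert a s ha ih =>
    simp only [Finset.sum_insert ha]
    exact (hf a).add ih

theorem TDef.aeval {ι : Type} (F : MvPolynomial ι P) {z : ι → (α → R) → R}
    (hz : ∀ i, TDef P (z i)) :
    TDef P (fun v => MvPolynomial.aeval (fun i => z i v) F) := by
  induction F using MvPolynomial.induction_on with
  | C a =>
    simp only [MvPolynomial.aeval_C]
    exact TDef.const a
  | add p q hp hq =>
    simp only [map_add]
    exact hp.add hq
  | mul_X p i hp =>
    simp only [map_mul, MvPolynomial.aeval_X]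
    exact hp.mul (hz i)

theorem TDef.lift {β : Type} {f : (α → R) → R} (hf : TDef P f) :
    TDef P (fun w : α ⊕ β → R => f (fun a => w (Sum.inl a))) := by
  obtain ⟨t, ht⟩ := hf
  refine ⟨t.relabel (Sum.map Sum.inl id), fun v => ?_⟩
  beta_reduce
  rw [FirstOrder.Language.Term.realize_relabel, ← ht]
  congr 1
  funext x
  rcases x with x | x <;> rfl

end terms

section formulas

variable {α : Type}

theorem Def.congr {S T : (α → R) → Prop} (h : Def P S) (e : ∀ v, S v ↔ T v) : Def P T := by
  obtain ⟨φ, hφ⟩ := h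
  exact ⟨φ, fun v => (hφ v).trans (e v)⟩

theorem Def.eq {f g : (α → R) → R} (hf : TDef P f) (hg : TDef P g) :
    Def P (fun v => f v = g v) := by
  obtain ⟨s, hs⟩ := hf
  obtain ⟨t, ht⟩ := hg
  exact ⟨s.equal t, fun v => by simp [hs, ht]⟩

theorem Def.and {S T : (α → R) → Prop} (hS : Def P S) (hT : Def P T) :
    Def P (fun v => S v ∧ T v) := by
  obtain ⟨φ, hφ⟩ := hS
  obtain ⟨ψ, hψ⟩ := hT
  exact ⟨φ ⊓ ψ, fun v => by simp [hφ, hψ]⟩

theorem Def.or {S T : (α → R) → Prop} (hS : Def P S) (hT : Def P T) :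
    Def P (fun v => S v ∨ T v) := by
  obtain ⟨φ, hφ⟩ := hS
  obtain ⟨ψ, hψ⟩ := hT
  exact ⟨φ ⊔ ψ, fun v => by simp [hφ, hψ]⟩

theorem Def.imp {S T : (α → R) → Prop} (hS : Def P S) (hT : Def P T) :
    Def P (fun v => S v → T v) := by
  obtain ⟨φ, hφ⟩ := hS
  obtain ⟨ψ, hψ⟩ := hT
  exact ⟨φ.imp ψ, fun v => by simp [hφ, hψ]⟩

theorem Def.not {S : (α → R) → Prop} (hS : Def P S) : Def P (fun v => ¬ S v) := by
  obtain ⟨φ, hφ⟩ := hS
  exact ⟨φ.not, fun v => by simp [hφ]⟩

theorem Def.true : Def P (fun _ : α → R => True) := ⟨⊤, fun v => by simp⟩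

theorem Def.finAll {ι : Type} [Finite ι] {S : ι → (α → R) → Prop} (hS : ∀ i, Def P (S i)) :
    Def P (fun v => ∀ i, S i v) := by
  choose φ hφ using hS
  exact ⟨FirstOrder.Language.Formula.iInf φ, fun v => by
    rw [FirstOrder.Language.Formula.realize_iInf]; simp [hφ]⟩

/-- the reordering of the variables for the quantifiers -/
def sw (α β : Type) : (α ⊕ β) ⊕ P → (α ⊕ P) ⊕ β
  | .inl (.inl a) => .inl (.inl a)
  | .inl (.inr b) => .inr b
  | .inr p => .inl (.inr p)

theorem Def.ex {β : Type} [Finite β] {S : (α → R) → (β → R) → Prop}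
    (h : Def P (fun w : α ⊕ β → R => S (fun a => w (Sum.inl a)) (fun b => w (Sum.inr b)))) :
    Def P (fun v => ∃ y, S v y) := by
  obtain ⟨φ, hφ⟩ := h
  refine ⟨(φ.relabel (sw α β)).iExs β, fun v => ?_⟩
  rw [FirstOrder.Language.Formula.realize_iExs]
  refine exists_congr fun y => ?_
  rw [FirstOrder.Language.Formula.realize_relabel]
  have e : (Sum.elim (Sum.elim v (algebraMap P R)) y ∘ sw α β : (α ⊕ β) ⊕ P → R) =
      Sum.elim (Sum.elim v y) (algebraMap P R) := by
    funext x
    rcases x with (a | b) | p <;> rfl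
  rw [e, hφ]
  simp

theorem Def.all {β : Type} [Finite β] {S : (α → R) → (β → R) → Prop}
    (h : Def P (fun w : α ⊕ β → R => S (fun a => w (Sum.inl a)) (fun b => w (Sum.inr b)))) :
    Def P (fun v => ∀ y, S v y) := by
  have h1 := (Def.ex (S := fun v y => ¬ S v y) h.not).not
  exact h1.congr fun v => by simp

theorem Def.ex1 {S : (α → R) → R → Prop}
    (h : Def P (fun w : α ⊕ Unit → R => S (fun a => w (Sum.inl a)) (w (Sum.inr ())))) :
    Def P (fun v => ∃ y, S v y) := by
  have h1 := Def.ex (S := fun v (y : Unit → R) => S v (y ())) h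
  refine h1.congr fun v => ⟨fun ⟨y, hy⟩ => ⟨_, hy⟩, fun ⟨y, hy⟩ => ⟨fun _ => y, hy⟩⟩

theorem Def.all1 {S : (α → R) → R → Prop}
    (h : Def P (fun w : α ⊕ Unit → R => S (fun a => w (Sum.inl a)) (w (Sum.inr ())))) :
    Def P (fun v => ∀ y, S v y) := by
  have h1 := Def.all (S := fun v (y : Unit → R) => S v (y ())) h
  exact h1.congr fun v => ⟨fun h y => h (fun _ => y), fun h y => h _⟩

/-- substitution of terms in a definable predicate -/
theorem Def.subst {β : Type} {S : (β → R) → Prop} (hS : Def P S) {f : β → (α → R) → R}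
    (hf : ∀ b, TDef P (f b)) : Def P (fun v => S (fun b => f b v)) := by
  obtain ⟨φ, hφ⟩ := hS
  choose t ht using hf
  refine ⟨φ.subst (Sum.elim t (fun p => FirstOrder.Language.Term.var (Sum.inr p))), fun v => ?_⟩
  rw [FirstOrder.Language.Formula.Realize, FirstOrder.Language.BoundedFormula.realize_subst]
  have e : (fun a => (Sum.elim t (fun p => FirstOrder.Language.Term.var (Sum.inr p)) a :
      FirstOrder.Language.ring.Term (α ⊕ P)).realize
      (Sum.elim v (algebraMap P R))) = Sum.elim (fun b => f b v) (algebraMap P R) := by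
    funext x
    rcases x with b | p
    · exact ht b v
    · rfl
  rw [e]
  exact hφ _

end formulas

end Pool.Agent.R619.PL
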