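import Mathlib

/-!
A finitely generated logically homogeneous structure is determined up to isomorphism by the types
it realizes.
-/

set_option autoImplicit false

namespace Pool.Agent.R619.Iso

open FirstOrder

universe u v w w'

variable {L : FirstOrder.Language.{u, v}} {W : Type w} {H : Type w'} [L.Structure W] [L.Structure H]

variable (L) in
/-- the tuples `μ` of `W` and `ν` of `H` have the same complete type -/
def Same {k : ℕ} (μ : Fin k → W) (ν : Fin k → H) : Prop :=
  ∀ φ : L.Formula (Fin k), φ.Realize μ ↔ φ.Realize ν

variable (L W H) in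
/-- `W` and `H` realize the same types of `k`-tuples for every `k ≥ 1` -/
def Isotypic : Prop :=
  ∀ k : ℕ, 1 ≤ k → (∀ μ : Fin k → W, ∃ ν : Fin k → H, Same L μ ν) ∧
    (∀ ν : Fin k → H, ∃ μ : Fin k → W, Same L μ ν)

theorem Same.restrict {k l : ℕ} {μ : Fin k → W} {ν : Fin k → H} (h : Same L μ ν)
    (e : Fin l → Fin k) : Same L (μ ∘ e) (ν ∘ e) := by
  intro φ
  have := h (φ.relabel e)
  rwa [Language.Formula.realize_relabel, Language.Formula.realize_relabel] at this

theorem Same.term {k : ℕ} {μ : Fin k → W} {ν : Fin k → H} (h : Same L μ ν)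
    (s t : L.Term (Fin k)) : s.realize μ = t.realize μ ↔ s.realize ν = t.realize ν := by
  have := h (s.equal t)
  rwa [Language.Formula.realize_equal, Language.Formula.realize_equal] at this

/-- if every element of `W` is the value of a term at `x`, tuples of `W` with the type of `x` are the
image of `x` under a surjective map which commutes with the terms, and `H` is isotypic to `W`, then
there is a bijective homomorphism. -/
theorem exists_bij [L.IsAlgebraic] {r : ℕ} (hr : 1 ≤ r) (x : Fin r → W)
    (gen : ∀ w, ∃ t : L.Term (Fin r), t.realize x = w)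
    (hom : ∀ ν : Fin r → W, Same L x ν → ∀ w, ∃ t : L.Term (Fin r), t.realize ν = w)
    (iso : Isotypic L W H) : ∃ f : W → H, Function.Bijective f ∧
      ∃ b : Fin r → H, ∀ t : L.Term (Fin r), f (t.realize x) = t.realize b := by
  obtain ⟨b, hb⟩ := (iso r hr).1 x
  choose T hT using gen
  have key : ∀ t : L.Term (Fin r), (T (t.realize x)).realize b = t.realize b := by
    intro t
    exact (hb.term _ _).1 (hT _)
  refine ⟨fun w => (T w).realize b, ⟨?_, ?_⟩, b, key⟩
  · intro w w' h
    have h1 := (hb.term (T w) (T w')).2 h
    rwa [hT, hT] at h1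
  · intro c
    obtain ⟨μ, hμ⟩ := (iso (r + 1) (by omega)).2 (Fin.snoc b c : Fin (r + 1) → H)
    have h1 : Same L (μ ∘ Fin.castSucc) b := by
      have := hμ.restrict (Fin.castSucc : Fin r → Fin (r + 1))
      have e : (Fin.snoc b c : Fin (r + 1) → H) ∘ Fin.castSucc = b := by
        funext i
        simp
      rwa [e] at this
    have h2 : Same L x (μ ∘ Fin.castSucc) := fun φ => (hb φ).trans (h1 φ).symm
    obtain ⟨t, ht⟩ := hom _ h2 (μ (Fin.last r))
    refine ⟨t.realize x, ?_⟩
    beta_reduce
    rw [key]
    have h3 := (hμ.term (t.relabel (Fin.castSucc : Fin r → Fin (r + 1)))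
      (Language.Term.var (Fin.last r))).1 (by
        rw [Language.Term.realize_relabel, ht]
        rfl)
    rw [Language.Term.realize_relabel] at h3
    have e : (Fin.snoc b c : Fin (r + 1) → H) ∘ Fin.castSucc = b := by
      funext i
      simp
    rw [e] at h3
    rw [h3]
    simp

end Pool.Agent.R619.Iso
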