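import Mathlib
import Pool.Agent.R619.DefDSL

/-!
Polynomial algebras: reduction of logical homogeneity to the definability of the generating tuples,
and the case of an infinite field.
-/

set_option autoImplicit false

namespace Pool.Agent.R619.PL

open FirstOrder FirstOrder.Ring MvPolynomial

/-- a surjective endomorphism of a noetherian ring is injective -/
theorem inj_of_surj {A : Type} [CommRing A] [IsNoetherianRing A] (f : A →+* A)
    (hf : Function.Surjective f) : Function.Injective f := by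
  have hs : ∀ n : ℕ, Function.Surjective ((f ^ n : A →+* A) : A → A) := by
    intro n
    rw [RingHom.coe_pow]
    exact hf.iterate n
  have hmono : Monotone (fun n : ℕ => RingHom.ker (f ^ n)) := by
    refine monotone_nat_of_le_succ fun n x hx => ?_
    rw [RingHom.mem_ker] at hx ⊢
    rw [pow_succ', RingHom.mul_def, RingHom.comp_apply, hx, map_zero]
  obtain ⟨n, hn⟩ := monotone_stabilizes_iff_noetherian.2 ‹IsNoetherianRing A› ⟨_, hmono⟩
  rw [injective_iff_map_eq_zero]
  intro x hx
  obtain ⟨y, rfl⟩ := hs n x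
  have h1 : y ∈ RingHom.ker (f ^ (n + 1)) := by
    rw [RingHom.mem_ker, pow_succ', RingHom.mul_def, RingHom.comp_apply]
    exact hx
  have h2 : RingHom.ker (f ^ n) = RingHom.ker (f ^ (n + 1)) := hn (n + 1) (Nat.le_succ n)
  rw [← h2] at h1
  exact h1

variable {P : Type} [Field P]

section

variable {m : ℕ} [CompatibleRing (MvPolynomial (Fin m) P)]

variable (P m) in
/-- there is a definable set of tuples which contains the variables and consists of generating
tuples -/
def HasGen : Prop :=
  ∃ Gen : (Fin m → MvPolynomial (Fin m) P) → Prop, Def P Gen ∧ Gen X ∧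
    ∀ z, Gen z → Function.Surjective (aeval z : MvPolynomial (Fin m) P →ₐ[P] MvPolynomial (Fin m) P)

theorem main_of_hasGen (h : HasGen P m) (n : ℕ) (a b : Fin n → MvPolynomial (Fin m) P)
    (hab : ∀ φ : FirstOrder.Language.ring.Formula (Fin n ⊕ P),
      (φ.Realize (Sum.elim a (algebraMap P (MvPolynomial (Fin m) P))) ↔
        φ.Realize (Sum.elim b (algebraMap P (MvPolynomial (Fin m) P))))) :
    ∃ σ : MvPolynomial (Fin m) P ≃ₐ[P] MvPolynomial (Fin m) P, ∀ i, σ (a i) = b i := by
  obtain ⟨Gen, hd, hX, hs⟩ := h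
  have h1 : Def P (fun v : Fin n → MvPolynomial (Fin m) P =>
      ∃ z : Fin m → MvPolynomial (Fin m) P, Gen z ∧ ∀ i, v i = aeval z (a i)) := by
    refine Def.ex ?_
    refine Def.and ?_ (Def.finAll fun i => ?_)
    · exact Def.subst hd (f := fun (j : Fin m) w => w (Sum.inr j)) (fun j => TDef.var _)
    · refine Def.eq (TDef.var _) ?_
      exact TDef.aeval _ (fun j => TDef.var _)
  obtain ⟨φ, hφ⟩ := h1
  have h2 : φ.Realize (Sum.elim b (algebraMap P (MvPolynomial (Fin m) P))) := by
    rw [← hab, hφ]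
    exact ⟨X, hX, fun i => by rw [aeval_X_left_apply]⟩
  rw [hφ] at h2
  obtain ⟨z, hz, hb⟩ := h2
  have hbij : Function.Bijective
      (aeval z : MvPolynomial (Fin m) P →ₐ[P] MvPolynomial (Fin m) P) :=
    ⟨inj_of_surj _ (hs z hz), hs z hz⟩
  exact ⟨AlgEquiv.ofBijective _ hbij, fun i => (hb i).symm⟩

end

section

variable {m : ℕ}

/-- membership in the ideal generated by the `z i - c i` -/
def Id {k : ℕ} {A : Type} [CommRing A] (z c : Fin k → A) (g : A) : Prop :=
  ∃ u : Fin k → A, g = ∑ i, (z i - c i) * u i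

theorem Id.iff {k : ℕ} {A : Type} [CommRing A] {z c : Fin k → A} {g : A} :
    Id z c g ↔ g ∈ Ideal.span (Set.range fun i => z i - c i) := by
  rw [Ideal.mem_span_range_iff_exists_fun]
  constructor
  · rintro ⟨u, hu⟩
    exact ⟨u, by rw [hu]; exact Finset.sum_congr rfl fun i _ => mul_comm _ _⟩
  · rintro ⟨u, hu⟩
    exact ⟨u, by rw [← hu]; exact Finset.sum_congr rfl fun i _ => mul_comm _ _⟩

theorem Id.sub {k : ℕ} {A : Type} [CommRing A] {z c : Fin k → A} {g h : A} (hg : Id z c g)
    (hh : Id z c h) : Id z c (g - h) := by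
  rw [Id.iff] at *
  exact Ideal.sub_mem _ hg hh

theorem Id.map_zero {k : ℕ} {A B : Type} [CommRing A] [CommRing B] {z c : Fin k → A} {g : A}
    (hg : Id z c g) (f : A →+* B) (hf : ∀ i, f (z i) = f (c i)) : f g = 0 := by
  obtain ⟨u, rfl⟩ := hg
  rw [map_sum]
  refine Finset.sum_eq_zero fun i _ => ?_
  rw [map_mul, map_sub, hf, sub_self, zero_mul]

/-- two evaluations differ by an element of the ideal -/
theorem Id.aeval_sub {A : Type} [CommRing A] [Algebra P A] {k l : ℕ} (z c : Fin k → A)
    (w w' : Fin l → A) (hw : ∀ i, Id z c (w i - w' i)) (g : MvPolynomial (Fin l) P) :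
    Id z c (aeval w g - aeval w' g) := by
  rw [Id.iff, ← Ideal.Quotient.eq_zero_iff_mem, map_sub, sub_eq_zero]
  have h1 : ∀ v : Fin l → A, Ideal.Quotient.mk (Ideal.span (Set.range fun i => z i - c i))
      (aeval v g) = aeval (fun i => Ideal.Quotient.mk (Ideal.span (Set.range fun i => z i - c i))
        (v i)) g := by
    intro v
    have h2 := (Ideal.Quotient.mkₐ P (Ideal.span (Set.range fun i => z i - c i)))
    rw [← Ideal.Quotient.mkₐ_eq_mk P, ← comp_aeval_apply]
  rw [h1, h1]
  congr 2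
  funext i
  have h3 := hw i
  rw [Id.iff, ← Ideal.Quotient.eq_zero_iff_mem, map_sub, sub_eq_zero] at h3
  exact h3

theorem Id.gen {k : ℕ} {A : Type} [CommRing A] (z c : Fin k → A) (i : Fin k) :
    Id z c (z i - c i) := by
  rw [Id.iff]
  exact Ideal.subset_span ⟨i, rfl⟩

theorem Id.zero {k : ℕ} {A : Type} [CommRing A] (z c : Fin k → A) : Id z c 0 :=
  ⟨0, by simp⟩

end

section infinite

variable {m : ℕ}

/-- constants: zero or invertible -/
def isP {A : Type} [CommRing A] (x : A) : Prop := x = 0 ∨ ∃ y, x * y = 1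

theorem isP_iff (x : MvPolynomial (Fin m) P) : isP x ↔ ∃ c : P, x = C c := by
  constructor
  · rintro (rfl | ⟨y, hy⟩)
    · exact ⟨0, by simp⟩
    · obtain ⟨r, _, hr⟩ := isUnit_iff_eq_C_of_isReduced.1 (IsUnit.of_mul_eq_one y hy)
      exact ⟨r, hr⟩
  · rintro ⟨c, rfl⟩
    by_cases h : c = 0
    · left; simp [h]
    · right
      exact ⟨C c⁻¹, by rw [← C_mul, mul_inv_cancel₀ h, C_1]⟩

/-- the first condition on tuples -/
def TT {A : Type} [CommRing A] (z : Fin m → A) : Prop :=
  (∀ g : A, ∀ c : Fin m → A, (∀ i, isP (c i)) → ∃ d, isP d ∧ Id z c (g - d)) ∧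
  (∀ g : A, (∀ c : Fin m → A, (∀ i, isP (c i)) → Id z c g) → g = 0)

/-- comparison of the functions given by two tuples -/
def FF {A : Type} [CommRing A] (z w : Fin m → A) : Prop :=
  ∀ g : A, ∃ h : A, ∀ c : Fin m → A, (∀ i, isP (c i)) → ∃ d, isP d ∧ Id z c (g - d) ∧
    Id w c (h - d)

theorem aeval_sub_C (w : Fin m → MvPolynomial (Fin m) P) (p : Fin m → P)
    (g : MvPolynomial (Fin m) P) : Id w (fun i => C (p i)) (aeval w g - C (eval p g)) := by
  have h := Id.aeval_sub w (fun i => C (p i)) w (fun i => C (p i)) (fun i => Id.gen _ _ i) g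
  have e : aeval (fun i => (C (p i) : MvPolynomial (Fin m) P)) g = C (eval p g) := by
    have h2 := comp_aeval_apply (R := P) (f := p) (Algebra.ofId P (MvPolynomial (Fin m) P)) g
    rw [← coe_aeval_eq_eval]
    exact h2.symm
  rw [e] at h
  exact h

theorem TT_X [Infinite P] : TT (X : Fin m → MvPolynomial (Fin m) P) := by
  constructor
  · intro g c hc
    choose p hp using fun i => (isP_iff (c i)).1 (hc i)
    obtain rfl : c = fun i => C (p i) := funext hp
    refine ⟨C (eval p g), (isP_iff _).2 ⟨_, rfl⟩, ?_⟩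
    have h := aeval_sub_C (X : Fin m → MvPolynomial (Fin m) P) p g
    rwa [aeval_X_left_apply] at h
  · intro g hg
    refine MvPolynomial.funext fun p => ?_
    have h := hg (fun i => C (p i)) (fun i => (isP_iff _).2 ⟨_, rfl⟩)
    have h2 := h.map_zero (eval p) (fun i => by simp)
    rw [h2, map_zero]

theorem Def.isP [CompatibleRing (MvPolynomial (Fin m) P)] {α : Type}
    {f : (α → MvPolynomial (Fin m) P) → MvPolynomial (Fin m) P} (hf : TDef P f) :
    Def P (fun v => isP (f v)) :=
  Def.or (Def.eq hf TDef.zero) (Def.ex1 (Def.eq (TDef.mul hf.lift (TDef.var _)) TDef.one))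

theorem Def.Id [CompatibleRing (MvPolynomial (Fin m) P)] {α : Type} {k : ℕ}
    {z c : Fin k → (α → MvPolynomial (Fin m) P) → MvPolynomial (Fin m) P}
    {f : (α → MvPolynomial (Fin m) P) → MvPolynomial (Fin m) P}
    (hz : ∀ i, TDef P (z i)) (hc : ∀ i, TDef P (c i)) (hf : TDef P f) :
    Def P (fun v => Id (fun i => z i v) (fun i => c i v) (f v)) :=
  Def.ex (Def.eq hf.lift (TDef.sum _ fun i => TDef.mul (TDef.sub (hz i).lift (hc i).lift)
    (TDef.var _)))

theorem Def_TT [CompatibleRing (MvPolynomial (Fin m) P)] {α : Type}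
    {z : Fin m → (α → MvPolynomial (Fin m) P) → MvPolynomial (Fin m) P}
    (hz : ∀ i, TDef P (z i)) : Def P (fun v => TT (fun i => z i v)) := by
  refine Def.and (Def.all1 (Def.all (Def.imp (Def.finAll fun i => ?_) (Def.ex1 (Def.and ?_ ?_)))))
    (Def.all1 (Def.imp (Def.all (Def.imp (Def.finAll fun i => ?_) ?_)) (Def.eq ?_ ?_)))
  · exact Def.isP (TDef.var _)
  · exact Def.isP (TDef.var _)
  · exact Def.Id (fun i => (hz i).lift.lift.lift) (fun i => TDef.var _)
      (TDef.sub (TDef.var _) (TDef.var _))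
  · exact Def.isP (TDef.var _)
  · exact Def.Id (fun i => (hz i).lift.lift) (fun i => TDef.var _) (TDef.var _)
  · exact TDef.var _
  · exact TDef.zero

theorem Def_FF [CompatibleRing (MvPolynomial (Fin m) P)] {α : Type}
    {z w : Fin m → (α → MvPolynomial (Fin m) P) → MvPolynomial (Fin m) P}
    (hz : ∀ i, TDef P (z i)) (hw : ∀ i, TDef P (w i)) :
    Def P (fun v => FF (fun i => z i v) (fun i => w i v)) := by
  refine Def.all1 (Def.ex1 (Def.all (Def.imp (Def.finAll fun i => ?_)
    (Def.ex1 (Def.and ?_ (Def.and ?_ ?_))))))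
  · exact Def.isP (TDef.var _)
  · exact Def.isP (TDef.var _)
  · exact Def.Id (fun i => (hz i).lift.lift.lift.lift) (fun i => TDef.var _)
      (TDef.sub (TDef.var _) (TDef.var _))
  · exact Def.Id (fun i => (hw i).lift.lift.lift.lift) (fun i => TDef.var _)
      (TDef.sub (TDef.var _) (TDef.var _))

theorem hasGen_infinite [Infinite P] [CompatibleRing (MvPolynomial (Fin m) P)] : HasGen P m := by
  refine ⟨fun z => TT z ∧ ∀ w : Fin m → MvPolynomial (Fin m) P, TT w → FF z w, ?_, ⟨TT_X, ?_⟩, ?_⟩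
  · refine Def.and ?_ (Def.all (Def.imp ?_ ?_))
    · exact Def_TT fun i => TDef.var i
    · exact Def_TT fun i => TDef.var _
    · exact Def_FF (fun i => TDef.var _) (fun i => TDef.var _)
  · intro w _ g
    refine ⟨aeval w g, fun c hc => ?_⟩
    choose p hp using fun i => (isP_iff (c i)).1 (hc i)
    obtain rfl : c = fun i => C (p i) := funext hp
    refine ⟨C (eval p g), (isP_iff _).2 ⟨_, rfl⟩, ?_, aeval_sub_C w p g⟩
    have h := aeval_sub_C (X : Fin m → MvPolynomial (Fin m) P) p g
    rwa [aeval_X_left_apply] at h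
  · rintro z ⟨hz, hw⟩ g
    obtain ⟨h, hh⟩ := hw X TT_X g
    refine ⟨h, ?_⟩
    rw [← sub_eq_zero]
    refine hz.2 _ fun c hc => ?_
    obtain ⟨d, hd, h1, h2⟩ := hh c hc
    choose p hp using fun i => (isP_iff (c i)).1 (hc i)
    obtain rfl : c = fun i => C (p i) := funext hp
    obtain ⟨e, rfl⟩ := (isP_iff d).1 hd
    have h3 := h2.map_zero (eval p) (fun i => by simp)
    rw [map_sub, eval_C, sub_eq_zero] at h3
    rw [← h3] at h1
    have h4 := (aeval_sub_C z p h).sub h1
    have e5 : aeval z h - C (eval p h) - (g - C (eval p h)) = aeval z h - g := by ring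
    rwa [e5] at h4

end infinite

end Pool.Agent.R619.PL
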