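import Mathlib
import Pool.Agent.R619.PolyHom1

/-!
Polynomial algebras over finite fields: the definable copies of the one variable polynomial ring.
-/

set_option autoImplicit false

namespace Pool.Agent.R619.PL

open FirstOrder FirstOrder.Ring MvPolynomial

variable {P : Type} [Field P] {m : ℕ}

/-- the powers of `t` -/
def pw {A : Type} [CommRing A] (t s : A) : Prop :=
  (∀ d, d ∣ s → (∃ y, d * y = 1) ∨ t ∣ d) ∧ (t - 1) ∣ (s - 1)

/-- the polynomials in `t` -/
def Ct {A : Type} [CommRing A] (t h : A) : Prop :=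
  h = 0 ∨ ∃ s s', pw t s ∧ pw t s' ∧ s' ≠ 1 ∧ h ∣ s * (s' - 1)

/-- `Ct t` is the subalgebra generated by `t` -/
def Good {A : Type} [CommRing A] (t : A) : Prop :=
  ¬ isP t ∧ (∀ x, isP x → Ct t x) ∧ Ct t t ∧ (∀ x y, Ct t x → Ct t y → Ct t (x + y)) ∧
  (∀ x y, Ct t x → Ct t y → Ct t (x * y)) ∧
  (∀ x, Ct t x → ∃ c e, isP c ∧ Ct t e ∧ x = c + t * e)

theorem not_isP_totalDegree {t : MvPolynomial (Fin m) P} (ht : ¬ isP t) : 0 < t.totalDegree := by
  rw [Nat.pos_iff_ne_zero]
  intro h
  rw [totalDegree_eq_zero_iff_eq_C] at h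
  exact ht ((isP_iff t).2 ⟨_, h⟩)

theorem ne_zero_of_not_isP {t : MvPolynomial (Fin m) P} (ht : ¬ isP t) : t ≠ 0 := fun h => ht (Or.inl h)

theorem totalDegree_C_add {t e : MvPolynomial (Fin m) P} (ht : ¬ isP t) (c : P) (he : e ≠ 0) :
    e.totalDegree < (C c + t * e).totalDegree := by
  have h1 : (t * e).totalDegree = t.totalDegree + e.totalDegree :=
    totalDegree_mul_of_isDomain (ne_zero_of_not_isP ht) he
  have h0 := not_isP_totalDegree ht
  have h2 : (C c + t * e).totalDegree = (t * e).totalDegree := by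
    refine totalDegree_add_eq_right_of_totalDegree_lt ?_
    rw [totalDegree_C, h1]
    omega
  omega

/-- evaluation at a nonconstant polynomial is injective -/
theorem aeval_inj {t : MvPolynomial (Fin m) P} (ht : ¬ isP t) : ∀ (n : ℕ) (p : Polynomial P), p.natDegree ≤ n →
    Polynomial.aeval t p = 0 → p = 0 := by
  intro n
  induction n with
  | zero =>
    intro p hp h
    rw [Polynomial.eq_C_of_natDegree_le_zero hp] at h ⊢
    rw [Polynomial.aeval_C, MvPolynomial.algebraMap_eq, MvPolynomial.C_eq_zero] at h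
    rw [h, Polynomial.C_0]
  | succ n ih =>
    intro p hp h
    have e := Polynomial.divX_mul_X_add p
    rw [← e, map_add, map_mul, Polynomial.aeval_X, Polynomial.aeval_C,
      MvPolynomial.algebraMap_eq] at h
    by_cases hq : Polynomial.aeval t p.divX = 0
    · have h2 : p.divX = 0 := by
        refine ih _ ?_ hq
        rw [Polynomial.natDegree_divX_eq_natDegree_tsub_one]
        omega
      rw [hq, zero_mul, zero_add, MvPolynomial.C_eq_zero] at h
      rw [← e, h2, h]
      simp
    · exfalso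
      have h3 := totalDegree_C_add ht (p.coeff 0) hq
      rw [add_comm, mul_comm, h, totalDegree_zero] at h3
      omega

theorem Good.mem_iff {t : MvPolynomial (Fin m) P} (h : Good t) (x : MvPolynomial (Fin m) P) :
    Ct t x ↔ ∃ p : Polynomial P, x = Polynomial.aeval t p := by
  obtain ⟨h1, h2, h3, h4, h5, h6⟩ := h
  constructor
  · intro hx
    induction hn : x.totalDegree using Nat.strong_induction_on generalizing x with
    | _ n ih =>
      obtain ⟨c, e, hc, he, rfl⟩ := h6 x hx
      obtain ⟨c, rfl⟩ := (isP_iff c).1 hc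
      by_cases he0 : e = 0
      · exact ⟨Polynomial.C c, by rw [he0, mul_zero, add_zero, Polynomial.aeval_C]; rfl⟩
      · obtain ⟨q, hq⟩ := ih e.totalDegree (by rw [← hn]; exact totalDegree_C_add h1 c he0) e he rfl
        refine ⟨Polynomial.C c + Polynomial.X * q, ?_⟩
        rw [map_add, map_mul, Polynomial.aeval_X, Polynomial.aeval_C, ← hq]
        rfl
  · rintro ⟨p, rfl⟩
    induction p using Polynomial.induction_on' with
    | add p q hp hq => rw [map_add]; exact h4 _ _ hp hq
    | monomial n a =>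
      rw [Polynomial.aeval_monomial]
      refine h5 _ _ (h2 _ ((isP_iff _).2 ⟨a, rfl⟩)) ?_
      induction n with
      | zero => rw [pow_zero]; exact h2 _ ((isP_iff _).2 ⟨1, by simp⟩)
      | succ n ih => rw [pow_succ]; exact h5 _ _ ih h3

theorem Good.inj {t : MvPolynomial (Fin m) P} (h : Good t) {p q : Polynomial P}
    (e : Polynomial.aeval t p = Polynomial.aeval t q) : p = q := by
  rw [← sub_eq_zero, ← map_sub] at e
  exact sub_eq_zero.1 (aeval_inj h.1 _ _ le_rfl e)

/-- the two polynomials are equal when the subalgebras are linked -/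
theorem eq_of_link {t t' : MvPolynomial (Fin m) P} (h' : Good t')
    (hl : ∀ x, Ct t' x → (t - t') ∣ x → x = 0) {p q : Polynomial P}
    (hd : (t - t') ∣ (Polynomial.aeval t p - Polynomial.aeval t' q)) : p = q := by
  have h1 : (t - t') ∣ (Polynomial.aeval t p - Polynomial.aeval t' p) := by
    have := Polynomial.sub_dvd_eval_sub t t' (p.map (algebraMap P (MvPolynomial (Fin m) P)))
    rwa [Polynomial.eval_map_algebraMap, Polynomial.eval_map_algebraMap] at this
  have h2 : (t - t') ∣ Polynomial.aeval t' (p - q) := by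
    have := dvd_sub hd h1
    rw [map_sub]
    have e : Polynomial.aeval t p - Polynomial.aeval t' q -
      (Polynomial.aeval t p - Polynomial.aeval t' p) =
      Polynomial.aeval t' p - Polynomial.aeval t' q := by ring
    rwa [e] at this
  have h3 := hl _ ((h'.mem_iff _).2 ⟨_, rfl⟩) h2
  exact sub_eq_zero.1 (aeval_inj h'.1 _ _ le_rfl h3)

/-- polynomials in one of the variables -/
theorem range_iff (j : Fin m) (h : MvPolynomial (Fin m) P) :
    (∃ q : Polynomial P, h = Polynomial.aeval (X j) q) ↔ h.vars ⊆ {j} := by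
  have e : (h.vars ⊆ {j}) ↔ h ∈ supported P {j} := by
    rw [mem_supported]
    exact ⟨fun h x hx => by simpa using h hx, fun h x hx => by simpa using h hx⟩
  rw [e, supported_eq_adjoin_X, Set.image_singleton, Algebra.adjoin_singleton_eq_range_aeval,
    AlgHom.mem_range]
  exact exists_congr fun q => eq_comm

theorem fac {j : Fin m} {h x : MvPolynomial (Fin m) P} (hx : x ≠ 0) (hd : h ∣ x)
    (hr : ∃ q : Polynomial P, x = Polynomial.aeval (X j) q) :
    ∃ q : Polynomial P, h = Polynomial.aeval (X j) q := by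
  rw [range_iff] at hr ⊢
  obtain ⟨g, rfl⟩ := hd
  have h1 : h ≠ 0 := left_ne_zero_of_mul hx
  have h2 : g ≠ 0 := right_ne_zero_of_mul hx
  intro i hi
  refine hr ?_
  rw [mem_vars_iff_degreeOf_ne_zero] at hi ⊢
  rw [degreeOf_mul_eq h1 h2]
  omega

theorem pw_X (j : Fin m) (s : MvPolynomial (Fin m) P) : pw (X j) s ↔ ∃ n : ℕ, s = X j ^ n := by
  constructor
  · rintro ⟨h1, h2⟩
    have hs : s ≠ 0 := by
      rintro rfl
      obtain ⟨u, hu⟩ := h2
      have h3 := congrArg (eval (fun _ => (1 : P))) hu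
      simp at h3
    obtain ⟨n, c, hc, rfl⟩ := WfDvdMonoid.max_power_factor hs
      (X_prime (R := P) (i := j)).irreducible
    rcases h1 c (dvd_mul_left _ _) with ⟨y, hy⟩ | h
    · obtain ⟨r, _, rfl⟩ := isUnit_iff_eq_C_of_isReduced.1 (IsUnit.of_mul_eq_one y hy)
      obtain ⟨u, hu⟩ := h2
      have h3 := congrArg (eval (fun _ => (1 : P))) hu
      simp only [map_sub, map_mul, map_pow, eval_X, eval_C, one_pow, one_mul, map_one, sub_self,
        zero_mul, sub_eq_zero] at h3
      exact ⟨n, by rw [h3, C_1, mul_one]⟩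
    · exact absurd h hc
  · rintro ⟨n, rfl⟩
    refine ⟨fun d hd => ?_, ?_⟩
    · obtain ⟨i, _, hi⟩ := (dvd_prime_pow (X_prime (R := P) (i := j)) n).1 hd
      rcases Nat.eq_zero_or_pos i with rfl | hpos
      · left
        rw [pow_zero, associated_one_iff_isUnit] at hi
        exact hi.exists_right_inv
      · right
        refine dvd_trans (dvd_pow_self _ hpos.ne') hi.symm.dvd
    · have := sub_dvd_pow_sub_pow (X j : MvPolynomial (Fin m) P) 1 n
      rwa [one_pow] at this

theorem exists_pow [Finite P] (q : Polynomial P) (hq : q ≠ 0) :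
    ∃ a b : ℕ, 0 < b ∧ q ∣ Polynomial.X ^ a * (Polynomial.X ^ b - 1) := by
  have hfin : Finite (Polynomial.degreeLT P (q.natDegree + 1)) :=
    Finite.of_equiv _ (Polynomial.degreeLTEquiv P (q.natDegree + 1)).symm.toEquiv
  have hmem : ∀ n : ℕ, (Polynomial.X ^ n : Polynomial P) % q ∈
      Polynomial.degreeLT P (q.natDegree + 1) := by
    intro n
    rw [Polynomial.mem_degreeLT]
    refine lt_trans (EuclideanDomain.mod_lt _ hq) ?_
    rw [Polynomial.degree_eq_natDegree hq]
    exact_mod_cast Nat.lt_succ_self _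
  obtain ⟨i, k, hne, he⟩ := Finite.exists_ne_map_eq_of_infinite
    (fun n : ℕ => (⟨_, hmem n⟩ : Polynomial.degreeLT P (q.natDegree + 1)))
  have he : (Polynomial.X ^ i : Polynomial P) % q = (Polynomial.X ^ k : Polynomial P) % q :=
    congrArg Subtype.val he
  have hdvd : ∀ a b : ℕ, (Polynomial.X ^ a : Polynomial P) % q = (Polynomial.X ^ b) % q →
      q ∣ Polynomial.X ^ b - Polynomial.X ^ a := by
    intro a b hab
    have h1 := EuclideanDomain.div_add_mod (Polynomial.X ^ a : Polynomial P) q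
    have h2 := EuclideanDomain.div_add_mod (Polynomial.X ^ b : Polynomial P) q
    rw [hab] at h1
    refine ⟨Polynomial.X ^ b / q - Polynomial.X ^ a / q, ?_⟩
    rw [mul_sub]
    linear_combination h1 - h2
  rcases lt_or_gt_of_ne hne with h | h
  · refine ⟨i, k - i, by omega, ?_⟩
    have h3 := hdvd i k he
    rwa [mul_sub, mul_one, ← pow_add, Nat.add_sub_cancel' h.le]
  · refine ⟨k, i - k, by omega, ?_⟩
    have h3 := hdvd k i he.symm
    rwa [mul_sub, mul_one, ← pow_add, Nat.add_sub_cancel' h.le]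

theorem X_pow_ne_one (j : Fin m) {b : ℕ} (hb : 0 < b) : (X j : MvPolynomial (Fin m) P) ^ b ≠ 1 := by
  intro h
  have := congrArg (eval (fun _ => (0 : P))) h
  simp [hb.ne'] at this

theorem Ct_X [Finite P] (j : Fin m) (h : MvPolynomial (Fin m) P) :
    Ct (X j) h ↔ ∃ q : Polynomial P, h = Polynomial.aeval (X j) q := by
  constructor
  · rintro (rfl | ⟨s, s', hs, hs', hne, hd⟩)
    · exact ⟨0, by simp⟩
    · obtain ⟨a, rfl⟩ := (pw_X j s).1 hs
      obtain ⟨b, rfl⟩ := (pw_X j s').1 hs'
      refine fac ?_ hd ⟨Polynomial.X ^ a * (Polynomial.X ^ b - 1), by simp⟩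
      exact mul_ne_zero (pow_ne_zero _ (X_ne_zero j)) (sub_ne_zero.2 hne)
  · rintro ⟨q, rfl⟩
    by_cases hq : q = 0
    · left; simp [hq]
    · right
      obtain ⟨a, b, hb, hd⟩ := exists_pow q hq
      refine ⟨X j ^ a, X j ^ b, (pw_X j _).2 ⟨a, rfl⟩, (pw_X j _).2 ⟨b, rfl⟩,
        X_pow_ne_one j hb, ?_⟩
      have := map_dvd (Polynomial.aeval (X j : MvPolynomial (Fin m) P)) hd
      simpa using this

theorem not_isP_X (j : Fin m) : ¬ isP (X j : MvPolynomial (Fin m) P) := by
  rw [isP_iff]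
  rintro ⟨c, hc⟩
  have := congrArg totalDegree hc
  rw [totalDegree_X, totalDegree_C] at this
  omega

theorem Good_X [Finite P] (j : Fin m) : Good (X j : MvPolynomial (Fin m) P) := by
  refine ⟨not_isP_X j, ?_, ?_, ?_, ?_, ?_⟩
  · intro x hx
    obtain ⟨c, rfl⟩ := (isP_iff x).1 hx
    exact (Ct_X j _).2 ⟨Polynomial.C c, by simp⟩
  · exact (Ct_X j _).2 ⟨Polynomial.X, by simp⟩
  · intro x y hx hy
    obtain ⟨p, rfl⟩ := (Ct_X j _).1 hx
    obtain ⟨q, rfl⟩ := (Ct_X j _).1 hy
    exact (Ct_X j _).2 ⟨p + q, by simp⟩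
  · intro x y hx hy
    obtain ⟨p, rfl⟩ := (Ct_X j _).1 hx
    obtain ⟨q, rfl⟩ := (Ct_X j _).1 hy
    exact (Ct_X j _).2 ⟨p * q, by simp⟩
  · intro x hx
    obtain ⟨p, rfl⟩ := (Ct_X j _).1 hx
    refine ⟨C (p.coeff 0), Polynomial.aeval (X j) p.divX, (isP_iff _).2 ⟨_, rfl⟩,
      (Ct_X j _).2 ⟨_, rfl⟩, ?_⟩
    conv_lhs => rw [← Polynomial.divX_mul_X_add p]
    rw [map_add, map_mul, Polynomial.aeval_X, Polynomial.aeval_C, add_comm, mul_comm]
    rfl

end Pool.Agent.R619.PL
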