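import Mathlib
import Pool.Agent.R619.PolyHom2

/-!
Polynomial algebras over finite fields: definability of the generating tuples.
-/

set_option autoImplicit false

namespace Pool.Agent.R619.PL

open FirstOrder FirstOrder.Ring MvPolynomial

variable {P : Type} [Field P] 

theorem hasGen_zero [CompatibleRing (MvPolynomial (Fin 0) P)] : HasGen P 0 := by
  refine ⟨fun _ => True, Def.true, trivial, fun z _ g => ?_⟩
  refine ⟨g, ?_⟩
  rw [eq_C_of_isEmpty g]
  simp

theorem hasGen_one [CompatibleRing (MvPolynomial (Fin 1) P)] : HasGen P 1 := by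
  refine ⟨fun z => ¬ isP (z 0) ∧ ∀ h, ∃ d, isP d ∧ ∃ u, h = d + z 0 * u, ?_, ⟨?_, ?_⟩, ?_⟩
  · refine Def.and (Def.not (Def.isP (TDef.var _))) (Def.all1 (Def.ex1 (Def.and
      (Def.isP (TDef.var _)) (Def.ex1 (Def.eq (TDef.var _) (TDef.add (TDef.var _)
        (TDef.mul (TDef.var _) (TDef.var _))))))))
  · exact not_isP_X 0
  · intro h
    have h1 := aeval_sub_C (X : Fin 1 → MvPolynomial (Fin 1) P) 0 h
    obtain ⟨u, hu⟩ := h1
    refine ⟨C (eval 0 h), (isP_iff _).2 ⟨_, rfl⟩, u 0, ?_⟩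
    rw [aeval_X_left_apply, Fin.sum_univ_one] at hu
    have e0 : (C ((0 : Fin 1 → P) 0) : MvPolynomial (Fin 1) P) = 0 := C_0
    linear_combination hu - u 0 * e0
  · rintro z ⟨h1, h2⟩
    obtain ⟨d, hd, u, hu⟩ := h2 (X 0)
    obtain ⟨d, rfl⟩ := (isP_iff d).1 hd
    have hu0 : u ≠ 0 := by
      rintro rfl
      rw [mul_zero, add_zero] at hu
      exact not_isP_X (P := P) (0 : Fin 1) (hu ▸ hd)
    have hz0 : z 0 ≠ 0 := ne_zero_of_not_isP h1
    have h3 : (X 0 : MvPolynomial (Fin 1) P).totalDegree = (z 0 * u).totalDegree := by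
      rw [hu]
      refine totalDegree_add_eq_right_of_totalDegree_lt ?_
      rw [totalDegree_C, totalDegree_mul_of_isDomain hz0 hu0]
      have := not_isP_totalDegree h1
      omega
    rw [totalDegree_X, totalDegree_mul_of_isDomain hz0 hu0] at h3
    have h4 := not_isP_totalDegree h1
    have h5 : u.totalDegree = 0 := by omega
    rw [totalDegree_eq_zero_iff_eq_C] at h5
    obtain ⟨c, hc⟩ : ∃ c : P, u = C c := ⟨_, h5⟩
    have key : aeval z (C d + X 0 * C c : MvPolynomial (Fin 1) P) =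
        (X 0 : MvPolynomial (Fin 1) P) := by
      have e : aeval z (C d + X 0 * C c : MvPolynomial (Fin 1) P) = C d + z 0 * C c := by
        rw [map_add, map_mul, aeval_X, aeval_C, aeval_C, MvPolynomial.algebraMap_eq]
      rw [e, ← hc, ← hu]
    intro g
    refine ⟨aeval (fun _ => (C d + X 0 * C c : MvPolynomial (Fin 1) P)) g, ?_⟩
    rw [comp_aeval_apply]
    have e : (fun _ : Fin 1 => aeval z (C d + X 0 * C c : MvPolynomial (Fin 1) P)) = X := by
      funext i
      rw [key, Subsingleton.elim i 0]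
    rw [e, aeval_X_left_apply]

section

variable {k : ℕ}

/-- the condition on the tuples -/
def Tf {A : Type} [CommRing A] (z : Fin (k + 1) → A) : Prop :=
  Good (z 0) ∧ ∀ g, (∀ c : Fin k → A, (∀ i, Ct (z 0) (c i)) → Id (fun i => z i.succ) c g) → g = 0

/-- linked elements -/
def Link {A : Type} [CommRing A] (t t' : A) : Prop := ∀ x, Ct t' x → (t - t') ∣ x → x = 0

/-- comparison -/
def Ff {A : Type} [CommRing A] (z w : Fin (k + 1) → A) : Prop :=
  ∀ g, ∃ h, ∀ c c' : Fin k → A, (∀ i, Ct (z 0) (c i)) → (∀ i, Ct (w 0) (c' i)) →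
    (∀ i, (z 0 - w 0) ∣ (c i - c' i)) → ∃ d d', Ct (z 0) d ∧ Ct (w 0) d' ∧
      Id (fun i => z i.succ) c (g - d) ∧ Id (fun i => w i.succ) c' (h - d') ∧ (z 0 - w 0) ∣ (d - d')

theorem kron (H : MvPolynomial (Fin (k + 1)) P) (hH : ∀ γ : Fin k → Polynomial P,
    aeval (Fin.cons Polynomial.X γ : Fin (k + 1) → Polynomial P) H = 0) : H = 0 := by
  set φ : MvPolynomial (Fin (k + 1)) P →ₐ[P] MvPolynomial (Fin k) (Polynomial P) :=
    aeval (Fin.cons (C Polynomial.X) X : Fin (k + 1) → MvPolynomial (Fin k) (Polynomial P)) with hφ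
  have h1 : φ H = 0 := by
    refine MvPolynomial.funext fun γ => ?_
    rw [map_zero, ← hH γ]
    have h2 : ∀ G : MvPolynomial (Fin (k + 1)) P, eval γ (φ G) =
        aeval (Fin.cons Polynomial.X γ : Fin (k + 1) → Polynomial P) G := by
      intro G
      induction G using MvPolynomial.induction_on with
      | C a =>
        rw [hφ, aeval_C, aeval_C, MvPolynomial.algebraMap_apply, eval_C]
      | add p q hp hq => rw [map_add, map_add, map_add, hp, hq]
      | mul_X p i hp =>
        rw [map_mul, map_mul, map_mul, hp, hφ, aeval_X, aeval_X]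
        congr 1
        refine Fin.cases ?_ (fun i => ?_) i
        · simp
        · simp
    exact h2 H
  have h3 : ∀ G : MvPolynomial (Fin (k + 1)) P, eval₂Hom (Polynomial.aeval (X 0 : MvPolynomial (Fin (k + 1)) P)).toRingHom
      (fun i : Fin k => (X i.succ : MvPolynomial (Fin (k + 1)) P)) (φ G) = G := by
    intro G
    induction G using MvPolynomial.induction_on with
    | C a =>
      rw [hφ, aeval_C, MvPolynomial.algebraMap_apply, eval₂Hom_C]
      simp
    | add p q hp hq => rw [map_add, map_add, hp, hq]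
    | mul_X p i hp =>
      rw [map_mul, map_mul, hp, hφ, aeval_X]
      congr 1
      refine Fin.cases ?_ (fun i => ?_) i
      · simp
      · simp
  rw [← h3 H, h1, map_zero]

/-- evaluation at `γ` -/
noncomputable def ev (τ : Equiv.Perm (Fin (k + 1))) (γ : Fin k → Polynomial P) :
    MvPolynomial (Fin (k + 1)) P →ₐ[P] Polynomial P :=
  aeval (fun j => (Fin.cons Polynomial.X γ : Fin (k + 1) → Polynomial P) (τ.symm j))

theorem ev_w (τ : Equiv.Perm (Fin (k + 1))) (γ : Fin k → Polynomial P) (H : MvPolynomial (Fin (k + 1)) P) :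
    ev τ γ (aeval (fun i => (X (τ i) : MvPolynomial (Fin (k + 1)) P)) H) =
      aeval (Fin.cons Polynomial.X γ : Fin (k + 1) → Polynomial P) H := by
  rw [comp_aeval_apply]
  congr 2
  funext i
  rw [ev, aeval_X, Equiv.symm_apply_apply]

theorem ev_aeval (τ : Equiv.Perm (Fin (k + 1))) (γ : Fin k → Polynomial P) (q : Polynomial P) :
    ev τ γ (Polynomial.aeval (X (τ 0) : MvPolynomial (Fin (k + 1)) P) q) = q := by
  rw [← Polynomial.aeval_algHom_apply]
  have : ev τ γ (X (τ 0) : MvPolynomial (Fin (k + 1)) P) = Polynomial.X := by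
    rw [ev, aeval_X, Equiv.symm_apply_apply, Fin.cons_zero]
  rw [this, Polynomial.aeval_X_left_apply]

theorem ev_Id {τ : Equiv.Perm (Fin (k + 1))} {γ : Fin k → Polynomial P} {g : MvPolynomial (Fin (k + 1)) P}
    (hg : Id (fun i : Fin k => (X (τ i.succ) : MvPolynomial (Fin (k + 1)) P))
      (fun i => Polynomial.aeval (X (τ 0) : MvPolynomial (Fin (k + 1)) P) (γ i)) g) : ev τ γ g = 0 := by
  refine hg.map_zero (ev τ γ).toRingHom fun i => ?_
  change ev τ γ (X (τ i.succ)) = ev τ γ (Polynomial.aeval (X (τ 0) : MvPolynomial (Fin (k + 1)) P) (γ i))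
  rw [ev_aeval, ev, aeval_X, Equiv.symm_apply_apply, Fin.cons_succ]

theorem aeval_perm (τ : Equiv.Perm (Fin (k + 1))) (g : MvPolynomial (Fin (k + 1)) P) :
    ∃ H : MvPolynomial (Fin (k + 1)) P, aeval (fun i => (X (τ i) : MvPolynomial (Fin (k + 1)) P)) H = g := by
  refine ⟨aeval (fun i => (X (τ.symm i) : MvPolynomial (Fin (k + 1)) P)) g, ?_⟩
  rw [comp_aeval_apply]
  have : (fun i => aeval (fun i => (X (τ i) : MvPolynomial (Fin (k + 1)) P)) (X (τ.symm i) : MvPolynomial (Fin (k + 1)) P)) = X := by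
    funext i
    rw [aeval_X, Equiv.apply_symm_apply]
  rw [this, aeval_X_left_apply]

theorem Tf_X [Finite P] (τ : Equiv.Perm (Fin (k + 1))) : Tf (fun i => (X (τ i) : MvPolynomial (Fin (k + 1)) P)) := by
  refine ⟨Good_X _, fun g hg => ?_⟩
  obtain ⟨H, rfl⟩ := aeval_perm τ g
  have h0 : H = 0 := by
    refine kron H fun γ => ?_
    have h1 := hg (fun i => Polynomial.aeval (X (τ 0) : MvPolynomial (Fin (k + 1)) P) (γ i))
      (fun i => (Ct_X _ _).2 ⟨_, rfl⟩)
    rw [← ev_w τ γ H]
    exact ev_Id h1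
  rw [h0, map_zero]

theorem exists_index [NeZero k] (t : MvPolynomial (Fin (k + 1)) P) (ht : ¬ isP t) :
    ∃ j : Fin (k + 1), ¬ ∃ q : Polynomial P, t = Polynomial.aeval (X j) q := by
  by_contra hc
  push Not at hc
  have h0 := (range_iff _ _).1 (hc 0)
  have h1 := (range_iff _ _).1 (hc (Fin.last k))
  have h2 : t.vars = ∅ := by
    rw [Finset.eq_empty_iff_forall_notMem]
    intro i hi
    have e0 := Finset.mem_singleton.1 (h0 hi)
    have e1 := Finset.mem_singleton.1 (h1 hi)
    rw [e0] at e1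
    exact NeZero.ne k (Fin.last_eq_zero_iff.1 e1.symm)
  rw [vars_eq_empty_iff_eq_C] at h2
  exact ht ((isP_iff t).2 ⟨_, h2⟩)

/-- the composite evaluation -/
theorem aeval_cons {A : Type} [CommRing A] [Algebra P A] (t : A) (γ : Fin k → Polynomial P)
    (H : MvPolynomial (Fin (k + 1)) P) : Polynomial.aeval t (aeval (Fin.cons Polynomial.X γ : Fin (k + 1) → Polynomial P) H) =
      aeval (Fin.cons t (fun i => Polynomial.aeval t (γ i)) : Fin (k + 1) → A) H := by
  rw [comp_aeval_apply]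
  congr 2
  funext i
  refine Fin.cases ?_ (fun i => ?_) i
  · simp
  · simp

theorem Id_cons {A : Type} [CommRing A] [Algebra P A] (w : Fin (k + 1) → A)
    (c : Fin k → A) (H : MvPolynomial (Fin (k + 1)) P) : Id (fun i : Fin k => w i.succ) c
      (aeval w H - aeval (Fin.cons (w 0) c : Fin (k + 1) → A) H) := by
  refine Id.aeval_sub _ _ _ _ (fun i => ?_) H
  refine Fin.cases ?_ (fun i => ?_) i
  · rw [Fin.cons_zero, sub_self]
    exact Id.zero _ _
  · rw [Fin.cons_succ]
    exact Id.gen (fun i : Fin k => w i.succ) c i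

theorem Def.dvd {m : ℕ} [CompatibleRing (MvPolynomial (Fin m) P)] {α : Type}
    {f g : (α → MvPolynomial (Fin m) P) → MvPolynomial (Fin m) P} (hf : TDef P f) (hg : TDef P g) :
    Def P (fun v => f v ∣ g v) :=
  Def.ex1 (Def.eq hg.lift (TDef.mul hf.lift (TDef.var _)))

theorem Def.pw {m : ℕ} [CompatibleRing (MvPolynomial (Fin m) P)] {α : Type}
    {t s : (α → MvPolynomial (Fin m) P) → MvPolynomial (Fin m) P} (ht : TDef P t) (hs : TDef P s) :
    Def P (fun v => pw (t v) (s v)) :=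
  Def.and (Def.all1 (Def.imp (Def.dvd (TDef.var _) hs.lift)
    (Def.or (Def.ex1 (Def.eq (TDef.mul (TDef.var _) (TDef.var _)) TDef.one))
      (Def.dvd ht.lift (TDef.var _)))))
    (Def.dvd (TDef.sub ht TDef.one) (TDef.sub hs TDef.one))

theorem Def.Ct {m : ℕ} [CompatibleRing (MvPolynomial (Fin m) P)] {α : Type}
    {t s : (α → MvPolynomial (Fin m) P) → MvPolynomial (Fin m) P} (ht : TDef P t) (hs : TDef P s) :
    Def P (fun v => Ct (t v) (s v)) :=
  Def.or (Def.eq hs TDef.zero) (Def.ex1 (Def.ex1 (Def.and (Def.pw ht.lift.lift (TDef.var _))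
    (Def.and (Def.pw ht.lift.lift (TDef.var _)) (Def.and
      (Def.not (Def.eq (TDef.var _) TDef.one))
      (Def.dvd hs.lift.lift (TDef.mul (TDef.var _) (TDef.sub (TDef.var _) TDef.one))))))))

theorem Def.Good {m : ℕ} [CompatibleRing (MvPolynomial (Fin m) P)] {α : Type}
    {t : (α → MvPolynomial (Fin m) P) → MvPolynomial (Fin m) P} (ht : TDef P t) :
    Def P (fun v => Good (t v)) :=
  Def.and (Def.not (Def.isP ht)) (Def.and (Def.all1 (Def.imp (Def.isP (TDef.var _))
    (Def.Ct ht.lift (TDef.var _)))) (Def.and (Def.Ct ht ht) (Def.and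
      (Def.all1 (Def.all1 (Def.imp (Def.Ct ht.lift.lift (TDef.var _))
        (Def.imp (Def.Ct ht.lift.lift (TDef.var _)) (Def.Ct ht.lift.lift
          (TDef.add (TDef.var _) (TDef.var _)))))))
      (Def.and
      (Def.all1 (Def.all1 (Def.imp (Def.Ct ht.lift.lift (TDef.var _))
        (Def.imp (Def.Ct ht.lift.lift (TDef.var _)) (Def.Ct ht.lift.lift
          (TDef.mul (TDef.var _) (TDef.var _)))))))
      (Def.all1 (Def.imp (Def.Ct ht.lift (TDef.var _)) (Def.ex1 (Def.ex1
        (Def.and (Def.isP (TDef.var _)) (Def.and (Def.Ct ht.lift.lift.lift (TDef.var _))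
          (Def.eq (TDef.var _) (TDef.add (TDef.var _) (TDef.mul ht.lift.lift.lift
            (TDef.var _)))))))))))))) 

theorem Def.Tf [CompatibleRing (MvPolynomial (Fin (k + 1)) P)] {α : Type}
    {z : Fin (k + 1) → (α → MvPolynomial (Fin (k + 1)) P) → MvPolynomial (Fin (k + 1)) P} (hz : ∀ i, TDef P (z i)) :
    Def P (fun v => Tf (fun i => z i v)) :=
  Def.and (Def.Good (hz 0)) (Def.all1 (Def.imp (Def.all (Def.imp
    (Def.finAll fun i => Def.Ct (hz 0).lift.lift (TDef.var _))
      (Def.Id (fun i => (hz i.succ).lift.lift) (fun i => TDef.var _) (TDef.var _))))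
    (Def.eq (TDef.var _) TDef.zero)))

theorem Def.Link {m : ℕ} [CompatibleRing (MvPolynomial (Fin m) P)] {α : Type}
    {t s : (α → MvPolynomial (Fin m) P) → MvPolynomial (Fin m) P} (ht : TDef P t) (hs : TDef P s) :
    Def P (fun v => Link (t v) (s v)) :=
  Def.all1 (Def.imp (Def.Ct hs.lift (TDef.var _)) (Def.imp (Def.dvd (TDef.sub ht.lift hs.lift)
    (TDef.var _)) (Def.eq (TDef.var _) TDef.zero)))

theorem Def.Ff [CompatibleRing (MvPolynomial (Fin (k + 1)) P)] {α : Type}
    {z w : Fin (k + 1) → (α → MvPolynomial (Fin (k + 1)) P) → MvPolynomial (Fin (k + 1)) P} (hz : ∀ i, TDef P (z i)) (hw : ∀ i, TDef P (w i)) :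
    Def P (fun v => Ff (fun i => z i v) (fun i => w i v)) := by
  refine Def.all1 (Def.ex1 (Def.all (Def.all (Def.imp (Def.finAll fun i => ?_)
    (Def.imp (Def.finAll fun i => ?_) (Def.imp (Def.finAll fun i => ?_) (Def.ex1 (Def.ex1
      (Def.and ?_ (Def.and ?_ (Def.and ?_ (Def.and ?_ ?_))))))))))))
  · exact Def.Ct (hz 0).lift.lift.lift.lift (TDef.var _)
  · exact Def.Ct (hw 0).lift.lift.lift.lift (TDef.var _)
  · exact Def.dvd (TDef.sub (hz 0).lift.lift.lift.lift (hw 0).lift.lift.lift.lift)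
      (TDef.sub (TDef.var _) (TDef.var _))
  · exact Def.Ct (hz 0).lift.lift.lift.lift.lift.lift (TDef.var _)
  · exact Def.Ct (hw 0).lift.lift.lift.lift.lift.lift (TDef.var _)
  · exact Def.Id (fun i => (hz i.succ).lift.lift.lift.lift.lift.lift) (fun i => TDef.var _)
      (TDef.sub (TDef.var _) (TDef.var _))
  · exact Def.Id (fun i => (hw i.succ).lift.lift.lift.lift.lift.lift) (fun i => TDef.var _)
      (TDef.sub (TDef.var _) (TDef.var _))
  · exact Def.dvd (TDef.sub (hz 0).lift.lift.lift.lift.lift.lift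
      (hw 0).lift.lift.lift.lift.lift.lift) (TDef.sub (TDef.var _) (TDef.var _))

theorem hasGen_finite [Finite P] [NeZero k] [CompatibleRing (MvPolynomial (Fin (k + 1)) P)] :
    HasGen P (k + 1) := by
  refine ⟨fun z => Tf z ∧ ∀ w : Fin (k + 1) → MvPolynomial (Fin (k + 1)) P, Tf w → Link (z 0) (w 0) → Ff z w, ?_,
    ⟨Tf_X (Equiv.refl _), ?_⟩, ?_⟩
  · refine Def.and ?_ (Def.all (Def.imp ?_ (Def.imp ?_ ?_)))
    · exact Def.Tf fun i => TDef.var i
    · exact Def.Tf fun i => TDef.var _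
    · exact Def.Link (TDef.var _) (TDef.var _)
    · exact Def.Ff (fun i => TDef.var _) (fun i => TDef.var _)
  · intro w hw hl g
    refine ⟨aeval w g, fun c c' hc hc' hd => ?_⟩
    choose γ hγ using fun i => ((Good_X (P := P) (0 : Fin (k + 1))).mem_iff _).1 (hc i)
    choose γ' hγ' using fun i => (hw.1.mem_iff _).1 (hc' i)
    have e : γ = γ' := by
      funext i
      refine eq_of_link hw.1 hl ?_
      rw [← hγ, ← hγ']
      exact hd i
    subst e
    obtain rfl : c = fun i => Polynomial.aeval (X 0 : MvPolynomial (Fin (k + 1)) P) (γ i) := funext hγ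
    obtain rfl : c' = fun i => Polynomial.aeval (w 0) (γ i) := funext hγ'
    set δ := aeval (Fin.cons Polynomial.X γ : Fin (k + 1) → Polynomial P) g with hδ
    refine ⟨Polynomial.aeval (X 0 : MvPolynomial (Fin (k + 1)) P) δ, Polynomial.aeval (w 0) δ,
      ((Good_X (P := P) (0 : Fin (k + 1))).mem_iff _).2 ⟨_, rfl⟩, (hw.1.mem_iff _).2 ⟨_, rfl⟩,
      ?_, ?_, ?_⟩
    · have h1 := Id_cons (X : Fin (k + 1) → MvPolynomial (Fin (k + 1)) P)
        (fun i => Polynomial.aeval (X 0 : MvPolynomial (Fin (k + 1)) P) (γ i)) g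
      rwa [← aeval_cons, aeval_X_left_apply] at h1
    · have h1 := Id_cons w (fun i => Polynomial.aeval (w 0) (γ i)) g
      rwa [← aeval_cons] at h1
    · have := Polynomial.sub_dvd_eval_sub (X 0 : MvPolynomial (Fin (k + 1)) P) (w 0) (δ.map (algebraMap P (MvPolynomial (Fin (k + 1)) P)))
      rwa [Polynomial.eval_map_algebraMap, Polynomial.eval_map_algebraMap] at this
  · rintro z ⟨hz, hw⟩ g
    obtain ⟨j, hj⟩ := exists_index (z 0) hz.1.1
    set τ := Equiv.swap (0 : Fin (k + 1)) j with hτ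
    have hτ0 : τ 0 = j := Equiv.swap_apply_left _ _
    have hl : Link (z 0) (X (τ 0) : MvPolynomial (Fin (k + 1)) P) := by
      intro x hx hd
      by_contra hx0
      refine hj ?_
      rw [hτ0] at hx hd
      obtain ⟨q, hq⟩ := fac hx0 hd ((Ct_X _ _).1 hx)
      exact ⟨q + Polynomial.X, by rw [map_add, ← hq, Polynomial.aeval_X]; ring⟩
    obtain ⟨h, hh⟩ := hw (fun i => X (τ i)) (Tf_X τ) hl g
    obtain ⟨H, rfl⟩ := aeval_perm τ h
    refine ⟨H, ?_⟩
    rw [← sub_eq_zero]
    refine hz.2 _ fun c hc => ?_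
    choose γ hγ using fun i => (hz.1.mem_iff _).1 (hc i)
    obtain rfl : c = fun i => Polynomial.aeval (z 0) (γ i) := funext hγ
    obtain ⟨d, d', hd, hd', h1, h2, h3⟩ := hh (fun i => Polynomial.aeval (z 0) (γ i))
      (fun i => Polynomial.aeval (X (τ 0) : MvPolynomial (Fin (k + 1)) P) (γ i)) hc
      (fun i => ((Good_X _).mem_iff _).2 ⟨_, rfl⟩) (fun i => by
        have := Polynomial.sub_dvd_eval_sub (z 0) (X (τ 0) : MvPolynomial (Fin (k + 1)) P) ((γ i).map (algebraMap P (MvPolynomial (Fin (k + 1)) P)))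
        rwa [Polynomial.eval_map_algebraMap, Polynomial.eval_map_algebraMap] at this)
    obtain ⟨δ, rfl⟩ := (hz.1.mem_iff _).1 hd
    obtain ⟨δ', rfl⟩ := ((Good_X (P := P) (τ 0)).mem_iff _).1 hd'
    have e : δ = δ' := eq_of_link (Good_X (P := P) (τ 0)) hl h3
    subst e
    have h4 := ev_Id h2
    rw [map_sub, ev_w, ev_aeval, sub_eq_zero] at h4
    have h5 := Id_cons z (fun i => Polynomial.aeval (z 0) (γ i)) H
    rw [← aeval_cons, h4] at h5
    have h6 := h5.sub h1
    have e6 : aeval z H - Polynomial.aeval (z 0) δ - (g - Polynomial.aeval (z 0) δ) =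
      aeval z H - g := by ring
    rwa [e6] at h6

end

theorem hasGen (m : ℕ) [CompatibleRing (MvPolynomial (Fin m) P)] : HasGen P m := by
  rcases finite_or_infinite P with hf | hf
  · rcases m with _ | _ | k
    · exact hasGen_zero
    · exact hasGen_one
    · exact hasGen_finite (k := k + 1)
  · exact hasGen_infinite

end Pool.Agent.R619.PL
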