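import Mathlib

/-!
# Projective algebras of plane sets

Definitions, terms, and a family of continuum many one-generated projective algebras.
-/

set_option autoImplicit false

namespace Pool.Agent.R619.Proj

/-- The horizontal axis of the plane. -/
def axX : Set (ℝ × ℝ) := {p | p.2 = 0}

/-- The vertical axis of the plane. -/
def axY : Set (ℝ × ℝ) := {p | p.1 = 0}

/-- Projection to the horizontal axis. -/
def pi1 (S : Set (ℝ × ℝ)) : Set (ℝ × ℝ) := {p | p.2 = 0 ∧ ∃ y, (p.1, y) ∈ S}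

/-- Projection to the vertical axis. -/
def pi2 (S : Set (ℝ × ℝ)) : Set (ℝ × ℝ) := {p | p.1 = 0 ∧ ∃ x, (x, p.2) ∈ S}

/-- The direct product of a subset of the horizontal and a subset of the vertical axis. -/
def dprod (A B : Set (ℝ × ℝ)) : Set (ℝ × ℝ) := {p | (p.1, 0) ∈ A ∧ (0, p.2) ∈ B}

/-- A projective algebra of plane sets: a family of subsets of the plane that is closed under finite
unions, complements, the two projections, and under the direct product of a member contained in the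
horizontal axis and a member contained in the vertical axis. -/
structure IsProjAlg (F : Set (Set (ℝ × ℝ))) : Prop where
  empty_mem : ∅ ∈ F
  union_mem : ∀ A ∈ F, ∀ B ∈ F, A ∪ B ∈ F
  compl_mem : ∀ A ∈ F, Aᶜ ∈ F
  pi1_mem : ∀ A ∈ F, pi1 A ∈ F
  pi2_mem : ∀ A ∈ F, pi2 A ∈ F
  dprod_mem : ∀ A ∈ F, ∀ B ∈ F, A ⊆ axX → B ⊆ axY → dprod A B ∈ F

/-- `φ` is an isomorphism from `F` to `G`: a bijection that commutes with all the operations. -/
structure IsIso (φ : Set (ℝ × ℝ) → Set (ℝ × ℝ)) (F G : Set (Set (ℝ × ℝ))) : Prop where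
  bij : Set.BijOn φ F G
  compl : ∀ A ∈ F, φ Aᶜ = (φ A)ᶜ
  union : ∀ A ∈ F, ∀ B ∈ F, φ (A ∪ B) = φ A ∪ φ B
  pi1 : ∀ A ∈ F, φ (pi1 A) = pi1 (φ A)
  pi2 : ∀ A ∈ F, φ (pi2 A) = pi2 (φ A)
  dprod : ∀ A ∈ F, ∀ B ∈ F, A ⊆ axX → B ⊆ axY → φ (dprod A B) = dprod (φ A) (φ B)

/-- Two families are isomorphic. -/
def Isomorphic (F G : Set (Set (ℝ × ℝ))) : Prop := ∃ φ, IsIso φ F G

/-- The projective algebra generated by the sets `S i`: the smallest one containing them. -/
def gen {k : ℕ} (S : Fin k → Set (ℝ × ℝ)) : Set (Set (ℝ × ℝ)) :=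
  {T | ∀ F, IsProjAlg F → (∀ i, S i ∈ F) → T ∈ F}

/-! ### Basic facts -/

theorem pi1_subset (S : Set (ℝ × ℝ)) : pi1 S ⊆ axX := fun _ h => h.1

theorem pi2_subset (S : Set (ℝ × ℝ)) : pi2 S ⊆ axY := fun _ h => h.1

theorem pi1_univ : pi1 Set.univ = axX := by
  ext p; simp [pi1, axX]

theorem pi2_univ : pi2 Set.univ = axY := by
  ext p; simp [pi2, axY]

theorem subset_axX_iff (A : Set (ℝ × ℝ)) : A ⊆ axX ↔ A ∪ axX = axX := by
  rw [Set.union_eq_right]

namespace IsProjAlg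

variable {F : Set (Set (ℝ × ℝ))} (hF : IsProjAlg F)

include hF

theorem univ_mem : Set.univ ∈ F := by
  have := hF.compl_mem _ hF.empty_mem
  rwa [Set.compl_empty] at this

theorem inter_mem {A B : Set (ℝ × ℝ)} (hA : A ∈ F) (hB : B ∈ F) : A ∩ B ∈ F := by
  have := hF.compl_mem _ (hF.union_mem _ (hF.compl_mem _ hA) _ (hF.compl_mem _ hB))
  rwa [Set.compl_union, compl_compl, compl_compl] at this

theorem axX_mem : axX ∈ F := by
  rw [← pi1_univ]; exact hF.pi1_mem _ hF.univ_mem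

theorem axY_mem : axY ∈ F := by
  rw [← pi2_univ]; exact hF.pi2_mem _ hF.univ_mem

theorem dprod_mem' {A B : Set (ℝ × ℝ)} (hA : A ∈ F) (hB : B ∈ F) : dprod A B ∈ F := by
  have h := hF.dprod_mem _ (hF.inter_mem hA hF.axX_mem) _ (hF.inter_mem hB hF.axY_mem)
    Set.inter_subset_right Set.inter_subset_right
  have e : dprod (A ∩ axX) (B ∩ axY) = dprod A B := by
    ext p; simp [dprod, axX, axY]
  rwa [e] at h

end IsProjAlg

theorem isProjAlg_gen {k : ℕ} (S : Fin k → Set (ℝ × ℝ)) : IsProjAlg (gen S) where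
  empty_mem := fun _ hF _ => hF.empty_mem
  union_mem := fun A hA B hB F hF hS => hF.union_mem A (hA F hF hS) B (hB F hF hS)
  compl_mem := fun A hA F hF hS => hF.compl_mem A (hA F hF hS)
  pi1_mem := fun A hA F hF hS => hF.pi1_mem A (hA F hF hS)
  pi2_mem := fun A hA F hF hS => hF.pi2_mem A (hA F hF hS)
  dprod_mem := fun A hA B hB h1 h2 F hF hS => hF.dprod_mem A (hA F hF hS) B (hB F hF hS) h1 h2

theorem mem_gen {k : ℕ} (S : Fin k → Set (ℝ × ℝ)) (i : Fin k) : S i ∈ gen S :=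
  fun _ _ hS => hS i

/-! ### Terms -/

/-- Terms in the operations of projective algebras. -/
inductive Tm (k : ℕ) : Type
  | var (i : Fin k) : Tm k
  | compl (t : Tm k) : Tm k
  | union (s t : Tm k) : Tm k
  | pi1 (t : Tm k) : Tm k
  | pi2 (t : Tm k) : Tm k
  | dprod (s t : Tm k) : Tm k
  | empty : Tm k

/-- Value of a term. -/
def Tm.val {k : ℕ} (S : Fin k → Set (ℝ × ℝ)) : Tm k → Set (ℝ × ℝ)
  | .var i => S i
  | .compl t => (t.val S)ᶜ
  | .union s t => s.val S ∪ t.val S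
  | .pi1 t => Proj.pi1 (t.val S)
  | .pi2 t => Proj.pi2 (t.val S)
  | .dprod s t => Proj.dprod (s.val S) (t.val S)
  | .empty => ∅

/-- An injective code for terms. -/
def Tm.code {k : ℕ} : Tm k → ℕ
  | .var i => 7 * i.val
  | .compl t => 7 * t.code + 1
  | .union s t => 7 * Nat.pair s.code t.code + 2
  | .pi1 t => 7 * t.code + 3
  | .pi2 t => 7 * t.code + 4
  | .dprod s t => 7 * Nat.pair s.code t.code + 5
  | .empty => 6

theorem Tm.code_inj {k : ℕ} : ∀ s t : Tm k, s.code = t.code → s = t := by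
  intro s
  induction s with
  | var i =>
    intro t h
    cases t <;> simp only [Tm.code] at h <;> first | (exfalso; omega) | skip
    congr 1; apply Fin.ext; omega
  | compl s ih =>
    intro t h
    cases t <;> simp only [Tm.code] at h <;> first | (exfalso; omega) | skip
    have h' := ih _ (Nat.eq_of_mul_eq_mul_left (by norm_num : 0 < 7) (Nat.add_right_cancel h))
    rw [h']
  | union s1 s2 ih1 ih2 =>
    intro t h
    cases t <;> simp only [Tm.code] at h <;> first | (exfalso; omega) | skip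
    have h' := Nat.pair_eq_pair.1 (Nat.eq_of_mul_eq_mul_left (by norm_num : 0 < 7) (Nat.add_right_cancel h))
    rw [ih1 _ h'.1, ih2 _ h'.2]
  | pi1 s ih =>
    intro t h
    cases t <;> simp only [Tm.code] at h <;> first | (exfalso; omega) | skip
    have h' := ih _ (Nat.eq_of_mul_eq_mul_left (by norm_num : 0 < 7) (Nat.add_right_cancel h))
    rw [h']
  | pi2 s ih =>
    intro t h
    cases t <;> simp only [Tm.code] at h <;> first | (exfalso; omega) | skip
    have h' := ih _ (Nat.eq_of_mul_eq_mul_left (by norm_num : 0 < 7) (Nat.add_right_cancel h))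
    rw [h']
  | dprod s1 s2 ih1 ih2 =>
    intro t h
    cases t <;> simp only [Tm.code] at h <;> first | (exfalso; omega) | skip
    have h' := Nat.pair_eq_pair.1 (Nat.eq_of_mul_eq_mul_left (by norm_num : 0 < 7) (Nat.add_right_cancel h))
    rw [ih1 _ h'.1, ih2 _ h'.2]
  | empty =>
    intro t h
    cases t <;> simp only [Tm.code] at h <;> first | (exfalso; omega) | skip
    rfl

instance (k : ℕ) : Countable (Tm k) := ⟨⟨Tm.code, fun s t => Tm.code_inj s t⟩⟩

theorem val_mem {k : ℕ} {F : Set (Set (ℝ × ℝ))} (hF : IsProjAlg F) {S : Fin k → Set (ℝ × ℝ)}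
    (hS : ∀ i, S i ∈ F) (t : Tm k) : t.val S ∈ F := by
  induction t with
  | var i => exact hS i
  | compl t ih => exact hF.compl_mem _ ih
  | union s t ih1 ih2 => exact hF.union_mem _ ih1 _ ih2
  | pi1 t ih => exact hF.pi1_mem _ ih
  | pi2 t ih => exact hF.pi2_mem _ ih
  | dprod s t ih1 ih2 => exact hF.dprod_mem' ih1 ih2
  | empty => exact hF.empty_mem

theorem gen_eq_range {k : ℕ} (S : Fin k → Set (ℝ × ℝ)) :
    gen S = Set.range (fun t : Tm k => t.val S) := by
  ext T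
  constructor
  · intro h
    refine h _ ?_ (fun i => ⟨.var i, rfl⟩)
    refine ⟨⟨.empty, rfl⟩, ?_, ?_, ?_, ?_, ?_⟩
    · rintro _ ⟨s, rfl⟩ _ ⟨t, rfl⟩; exact ⟨.union s t, rfl⟩
    · rintro _ ⟨s, rfl⟩; exact ⟨.compl s, rfl⟩
    · rintro _ ⟨s, rfl⟩; exact ⟨.pi1 s, rfl⟩
    · rintro _ ⟨s, rfl⟩; exact ⟨.pi2 s, rfl⟩
    · rintro _ ⟨s, rfl⟩ _ ⟨t, rfl⟩ _ _; exact ⟨.dprod s t, rfl⟩
  · rintro ⟨t, rfl⟩ F hF hS
    exact val_mem hF hS t

theorem gen_countable {k : ℕ} (S : Fin k → Set (ℝ × ℝ)) : (gen S).Countable := by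
  rw [gen_eq_range]; exact Set.countable_range _

/-- The product of the parts in the axes. -/
theorem dprod_inter (A B : Set (ℝ × ℝ)) : dprod (A ∩ axX) (B ∩ axY) = dprod A B := by
  ext p; simp [dprod, axX, axY]

/-- Homomorphisms: as in `IsIso`, without bijectivity. -/
structure IsHom (φ : Set (ℝ × ℝ) → Set (ℝ × ℝ)) (F : Set (Set (ℝ × ℝ))) : Prop where
  compl : ∀ A ∈ F, φ Aᶜ = (φ A)ᶜ
  union : ∀ A ∈ F, ∀ B ∈ F, φ (A ∪ B) = φ A ∪ φ B
  pi1 : ∀ A ∈ F, φ (pi1 A) = pi1 (φ A)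
  pi2 : ∀ A ∈ F, φ (pi2 A) = pi2 (φ A)
  dprod : ∀ A ∈ F, ∀ B ∈ F, A ⊆ axX → B ⊆ axY → φ (dprod A B) = dprod (φ A) (φ B)

theorem IsIso.isHom {φ : Set (ℝ × ℝ) → Set (ℝ × ℝ)} {F G : Set (Set (ℝ × ℝ))} (h : IsIso φ F G) :
    IsHom φ F := ⟨h.compl, h.union, h.pi1, h.pi2, h.dprod⟩

theorem IsHom.empty {φ : Set (ℝ × ℝ) → Set (ℝ × ℝ)} {F : Set (Set (ℝ × ℝ))} (h : IsHom φ F)
    (hF : IsProjAlg F) : φ ∅ = ∅ := by
  have h1 : φ Set.univ = Set.univ := by
    have h2 := h.union ∅ hF.empty_mem _ (hF.compl_mem _ hF.empty_mem)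
    rw [h.compl _ hF.empty_mem, Set.compl_empty, Set.empty_union, Set.union_compl_self] at h2
    exact h2
  have h3 := h.compl _ hF.univ_mem
  rwa [h1, Set.compl_univ] at h3

theorem IsHom.inter {φ : Set (ℝ × ℝ) → Set (ℝ × ℝ)} {F : Set (Set (ℝ × ℝ))} (h : IsHom φ F)
    (hF : IsProjAlg F) {A B : Set (ℝ × ℝ)} (hA : A ∈ F) (hB : B ∈ F) :
    φ (A ∩ B) = φ A ∩ φ B := by
  have e : A ∩ B = (Aᶜ ∪ Bᶜ)ᶜ := by rw [Set.compl_union, compl_compl, compl_compl]
  rw [e, h.compl _ (hF.union_mem _ (hF.compl_mem _ hA) _ (hF.compl_mem _ hB)),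
    h.union _ (hF.compl_mem _ hA) _ (hF.compl_mem _ hB), h.compl _ hA, h.compl _ hB,
    Set.compl_union, compl_compl, compl_compl]

theorem IsHom.univ {φ : Set (ℝ × ℝ) → Set (ℝ × ℝ)} {F : Set (Set (ℝ × ℝ))} (h : IsHom φ F)
    (hF : IsProjAlg F) : φ Set.univ = Set.univ := by
  have := h.compl _ hF.empty_mem
  rwa [h.empty hF, Set.compl_empty] at this

theorem IsHom.dprod' {φ : Set (ℝ × ℝ) → Set (ℝ × ℝ)} {F : Set (Set (ℝ × ℝ))} (h : IsHom φ F)
    (hF : IsProjAlg F) {A B : Set (ℝ × ℝ)} (hA : A ∈ F) (hB : B ∈ F) :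
    φ (Proj.dprod A B) = Proj.dprod (φ A) (φ B) := by
  have e1 : φ axX = axX := by
    rw [← pi1_univ, h.pi1 _ hF.univ_mem, h.univ hF]
  have e2 : φ axY = axY := by
    rw [← pi2_univ, h.pi2 _ hF.univ_mem, h.univ hF]
  rw [← dprod_inter, h.dprod _ (hF.inter_mem hA hF.axX_mem) _ (hF.inter_mem hB hF.axY_mem)
    Set.inter_subset_right Set.inter_subset_right, h.inter hF hA hF.axX_mem,
    h.inter hF hB hF.axY_mem, e1, e2, dprod_inter]

theorem IsHom.val {k : ℕ} {φ : Set (ℝ × ℝ) → Set (ℝ × ℝ)} {F : Set (Set (ℝ × ℝ))}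
    (h : IsHom φ F) (hF : IsProjAlg F) {S : Fin k → Set (ℝ × ℝ)} (hS : ∀ i, S i ∈ F) (t : Tm k) :
    φ (t.val S) = t.val (fun i => φ (S i)) := by
  induction t with
  | var i => rfl
  | compl t ih => simp only [Tm.val]; rw [h.compl _ (val_mem hF hS t), ih]
  | union s t ih1 ih2 =>
    simp only [Tm.val]; rw [h.union _ (val_mem hF hS s) _ (val_mem hF hS t), ih1, ih2]
  | pi1 t ih => simp only [Tm.val]; rw [h.pi1 _ (val_mem hF hS t), ih]
  | pi2 t ih => simp only [Tm.val]; rw [h.pi2 _ (val_mem hF hS t), ih]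
  | dprod s t ih1 ih2 =>
    simp only [Tm.val]; rw [h.dprod' hF (val_mem hF hS s) (val_mem hF hS t), ih1, ih2]
  | empty => exact h.empty hF

/-! ### The sets `S W` -/

/-- The plane set coding the set `W` of natural numbers: a path `0, 0, 1, 1, 2, 2, ...` in the
bipartite graph of abscissae and ordinates, with a leaf `-(n+1)` attached at the abscissa `n` for
each `n` in `W`. -/
def cod (W : Set ℕ) : Set (ℝ × ℝ) :=
  {p | (∃ n : ℕ, p.2 = n ∧ (p.1 = n ∨ p.1 = n + 1)) ∨ ∃ n ∈ W, p.1 = (n : ℕ) ∧ p.2 = -((n : ℝ) + 1)}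

/-- The term for the neighbours (ordinates) of a set of abscissae. -/
def nbY (t : Tm 1) : Tm 1 :=
  .pi2 (.compl (.union (.compl (.var 0)) (.compl (.dprod t (.pi2 (.compl .empty))))))

/-- The term for the neighbours (abscissae) of a set of ordinates. -/
def nbX (t : Tm 1) : Tm 1 :=
  .pi1 (.compl (.union (.compl (.var 0)) (.compl (.dprod (.pi1 (.compl .empty)) t))))

/-- The terms for the initial segments of the path. -/
def seg : ℕ → Tm 1
  | 0 => .compl (.union (.compl (.pi1 (.compl .empty))) (.compl (.pi2 (.compl .empty))))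
  | n + 1 => nbX (nbY (seg n))

/-- The term for the difference of two sets. -/
def dif (s t : Tm 1) : Tm 1 := .compl (.union (.compl s) t)

/-- The terms for the vertices of the path. -/
def vtx : ℕ → Tm 1
  | 0 => seg 0
  | n + 1 => dif (seg (n + 1)) (seg n)

/-- The test term. -/
def tst (n : ℕ) : Tm 1 := dif (nbY (vtx n)) (nbY (dif (.pi1 (.compl .empty)) (vtx n)))

theorem val_dif (s t : Tm 1) (S : Fin 1 → Set (ℝ × ℝ)) : (dif s t).val S = s.val S \ t.val S := by
  ext p; simp [dif, Tm.val]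

theorem val_nbY (t : Tm 1) (S : Fin 1 → Set (ℝ × ℝ)) (p : ℝ × ℝ) :
    p ∈ (nbY t).val S ↔ p.1 = 0 ∧ ∃ x, (x, 0) ∈ t.val S ∧ (x, p.2) ∈ S 0 := by
  simp only [nbY, Tm.val, pi2, dprod, Set.compl_union, compl_compl, Set.compl_empty,
    Set.mem_inter_iff, Set.mem_ofPred_eq, Set.mem_univ, exists_const, and_true]
  constructor
  · rintro ⟨h, x, h1, h2⟩; exact ⟨h, x, h2, h1⟩
  · rintro ⟨h, x, h1, h2⟩; exact ⟨h, x, h2, h1⟩

theorem val_nbX (t : Tm 1) (S : Fin 1 → Set (ℝ × ℝ)) (p : ℝ × ℝ) :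
    p ∈ (nbX t).val S ↔ p.2 = 0 ∧ ∃ y, (0, y) ∈ t.val S ∧ (p.1, y) ∈ S 0 := by
  simp only [nbX, Tm.val, pi1, dprod, Set.compl_union, compl_compl, Set.compl_empty,
    Set.mem_inter_iff, Set.mem_ofPred_eq, Set.mem_univ, exists_const, and_true, true_and]
  constructor
  · rintro ⟨h, y, h1, h2⟩; exact ⟨h, y, h2, h1⟩
  · rintro ⟨h, y, h1, h2⟩; exact ⟨h, y, h2, h1⟩

theorem val_seg (W : Set ℕ) (n : ℕ) (p : ℝ × ℝ) :
    p ∈ (seg n).val (fun _ => cod W) ↔ p.2 = 0 ∧ ∃ m : ℕ, m ≤ n ∧ p.1 = m := by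
  induction n generalizing p with
  | zero =>
    simp only [seg, Tm.val, pi1, pi2, Set.compl_union, compl_compl, Set.compl_empty,
      Set.mem_inter_iff, Set.mem_ofPred_eq, Set.mem_univ, exists_const, and_true, nonpos_iff_eq_zero,
      exists_eq_left, Nat.cast_zero]
  | succ n ih =>
    rw [seg, val_nbX]
    refine and_congr_right fun h0 => ?_
    constructor
    · rintro ⟨y, hy, hp⟩
      rw [val_nbY] at hy
      obtain ⟨-, x, hx, hxy⟩ := hy
      rw [ih] at hx
      obtain ⟨-, m, hm, rfl⟩ := hx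
      simp only [cod, Set.mem_ofPred_eq] at hxy hp
      rcases hxy with ⟨j, hj, hmj⟩ | ⟨j, hjW, hmj, hj⟩
      · rcases hp with ⟨i, hi, hpi⟩ | ⟨i, hiW, hpi, hi⟩
        · have hij : i = j := by
            have : (i : ℝ) = j := by rw [← hi, hj]
            exact_mod_cast this
          subst hij
          have him : i ≤ n := by
            rcases hmj with h | h
            · have : m = i := by exact_mod_cast h
              omega
            · have : m = i + 1 := by exact_mod_cast h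
              omega
          rcases hpi with h | h
          · exact ⟨i, by omega, h⟩
          · exact ⟨i + 1, by omega, by rw [h]; push_cast; rfl⟩
        · exfalso
          have h1 : (j : ℝ) = -((i : ℝ) + 1) := by rw [← hj, hi]
          have h2 : (0 : ℝ) ≤ j := Nat.cast_nonneg j
          have h3 : (0 : ℝ) ≤ i := Nat.cast_nonneg i
          linarith
      · rcases hp with ⟨i, hi, hpi⟩ | ⟨i, hiW, hpi, hi⟩
        · exfalso
          have h1 : (i : ℝ) = -((j : ℝ) + 1) := by rw [← hi, hj]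
          have h2 : (0 : ℝ) ≤ j := Nat.cast_nonneg j
          have h3 : (0 : ℝ) ≤ i := Nat.cast_nonneg i
          linarith
        · have hij : (i : ℝ) = j := by linarith
          have hij' : i = j := by exact_mod_cast hij
          have hmj' : m = j := by exact_mod_cast hmj
          exact ⟨i, by omega, hpi⟩
    · rintro ⟨m, hm, hpm⟩
      rcases Nat.lt_or_ge n m with h | h
      · have hmn : m = n + 1 := by omega
        refine ⟨n, ?_, Or.inl ⟨n, rfl, Or.inr (by rw [hpm, hmn]; push_cast; rfl)⟩⟩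
        rw [val_nbY]
        refine ⟨rfl, n, ?_, Or.inl ⟨n, rfl, Or.inl rfl⟩⟩
        rw [ih]
        exact ⟨rfl, n, le_rfl, rfl⟩
      · refine ⟨m, ?_, Or.inl ⟨m, rfl, Or.inl hpm⟩⟩
        rw [val_nbY]
        refine ⟨rfl, m, ?_, Or.inl ⟨m, rfl, Or.inl rfl⟩⟩
        rw [ih]
        exact ⟨rfl, m, h, rfl⟩

theorem val_vtx (W : Set ℕ) (n : ℕ) (p : ℝ × ℝ) :
    p ∈ (vtx n).val (fun _ => cod W) ↔ p.2 = 0 ∧ p.1 = n := by
  cases n with
  | zero =>
    rw [vtx, val_seg]
    simp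
  | succ n =>
    rw [vtx, val_dif, Set.mem_sdiff, val_seg, val_seg]
    constructor
    · rintro ⟨⟨h1, m, hm, hp⟩, h2⟩
      refine ⟨h1, ?_⟩
      rcases Nat.lt_or_ge n m with h | h
      · rw [hp]; congr 1; omega
      · exact absurd ⟨h1, m, h, hp⟩ h2
    · rintro ⟨h1, h2⟩
      refine ⟨⟨h1, n + 1, le_rfl, h2⟩, ?_⟩
      rintro ⟨-, m, hm, hp⟩
      rw [h2] at hp
      have : n + 1 = m := by exact_mod_cast hp
      omega

theorem tst_empty_iff (W : Set ℕ) (n : ℕ) : (tst n).val (fun _ => cod W) = ∅ ↔ n ∉ W := by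
  rw [tst, val_dif]
  constructor
  · intro h hn
    have hmem : ((0 : ℝ), -((n : ℝ) + 1)) ∈ (nbY (vtx n)).val (fun _ => cod W) := by
      rw [val_nbY]
      refine ⟨rfl, n, ?_, Or.inr ⟨n, hn, rfl, rfl⟩⟩
      rw [val_vtx]
      exact ⟨rfl, rfl⟩
    have hnot : ((0 : ℝ), -((n : ℝ) + 1)) ∉
        (nbY (dif (.pi1 (.compl .empty)) (vtx n))).val (fun _ => cod W) := by
      rw [val_nbY]
      rintro ⟨-, x, hx, hxy⟩
      rw [val_dif, Set.mem_sdiff, val_vtx] at hx
      rcases hxy with ⟨j, hj, -⟩ | ⟨j, -, hj, hj'⟩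
      · have h2 : (0 : ℝ) ≤ j := Nat.cast_nonneg j
        have h3 : (0 : ℝ) ≤ n := Nat.cast_nonneg n
        simp only at hj
        linarith
      · apply hx.2
        refine ⟨rfl, ?_⟩
        simp only at hj hj'
        simp only
        rw [hj]
        linarith
    have : ((0 : ℝ), -((n : ℝ) + 1)) ∈ (∅ : Set (ℝ × ℝ)) := h ▸ ⟨hmem, hnot⟩
    exact this
  · intro hn
    rw [Set.eq_empty_iff_forall_notMem]
    rintro ⟨a, y⟩ ⟨h1, h2⟩
    rw [val_nbY] at h1
    obtain ⟨ha, x, hx, hxy⟩ := h1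
    rw [val_vtx] at hx
    obtain ⟨-, hx⟩ := hx
    simp only at hx
    subst hx
    apply h2
    rw [val_nbY]
    refine ⟨ha, ?_⟩
    rcases hxy with ⟨j, hj, hj'⟩ | ⟨j, hjW, hj, -⟩
    · simp only at hj hj'
      rcases hj' with h | h
      · have hnj : n = j := by exact_mod_cast h
        refine ⟨n + 1, ?_, Or.inl ⟨n, by rw [hj, hnj], Or.inr rfl⟩⟩
        rw [val_dif, Set.mem_sdiff, val_vtx]
        refine ⟨?_, ?_⟩
        · simp [Tm.val, pi1]
        · rintro ⟨-, h⟩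
          simp at h
      · have hnj : n = j + 1 := by exact_mod_cast h
        refine ⟨j, ?_, Or.inl ⟨j, hj, Or.inl rfl⟩⟩
        rw [val_dif, Set.mem_sdiff, val_vtx]
        refine ⟨?_, ?_⟩
        · simp [Tm.val, pi1]
        · rintro ⟨-, h⟩
          simp only at h
          have : j = n := by exact_mod_cast h
          omega
    · simp only at hj
      have : n = j := by exact_mod_cast hj
      exact absurd (this ▸ hjW) hn

/-- A homomorphism into plane sets which is injective determines `W` from the image of the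
generator. -/
theorem cod_determined {F : Set (Set (ℝ × ℝ))} {W W' : Set ℕ}
    {φ ψ : Set (ℝ × ℝ) → Set (ℝ × ℝ)} {G : Set (Set (ℝ × ℝ))}
    (hF : IsProjAlg F) (hG : IsProjAlg G) (hφ : IsHom φ F) (hψ : IsHom ψ G)
    (iφ : Set.InjOn φ F) (iψ : Set.InjOn ψ G) (hW : cod W ∈ F) (hW' : cod W' ∈ G)
    (h : φ (cod W) = ψ (cod W')) : W = W' := by
  ext n
  rw [← not_iff_not, ← tst_empty_iff, ← tst_empty_iff]
  have h1 := hφ.val hF (S := fun _ => cod W) (fun _ => hW) (tst n)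
  have h2 := hψ.val hG (S := fun _ => cod W') (fun _ => hW') (tst n)
  have h3 : φ ((tst n).val fun _ => cod W) = ψ ((tst n).val fun _ => cod W') := by
    rw [h1, h2, h]
  have m1 := val_mem hF (S := fun _ => cod W) (fun _ => hW) (tst n)
  have m2 := val_mem hG (S := fun _ => cod W') (fun _ => hW') (tst n)
  constructor
  · intro e
    rw [e, hφ.empty hF, ← hψ.empty hG] at h3
    exact (iψ hG.empty_mem m2 h3).symm
  · intro e
    rw [e, hψ.empty hG, ← hφ.empty hF] at h3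
    exact iφ m1 hF.empty_mem h3

end Pool.Agent.R619.Proj
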