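import Mathlib

/-!
# Trees with labelled and unlabelled children

The language has unary function symbols `t` (parent), `c` and `s l` for `l` in a set of labels
(a label is a colour with a natural number). The structures `Nd I next col`: the elements are the
words `w` in the labels put on top of the points `j : I` of a chain.
-/

set_option autoImplicit false

namespace Pool.Agent.R619.Tree

open FirstOrder FirstOrder.Language

/-- A label: a colour and a natural number. -/
abbrev Lbl : Type := Bool × ℕ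

/-- The function symbols, all of them unary. -/
inductive Fn : ℕ → Type
  | t : Fn 1
  | c : Fn 1
  | s (l : Lbl) : Fn 1

/-- The language: the unary function symbols `t`, `c` and `s l`. -/
def L : FirstOrder.Language.{0, 0} := ⟨Fn, fun _ => Empty⟩

instance (n : ℕ) : IsEmpty (L.Relations n) := inferInstanceAs (IsEmpty Empty)

/-- The nodes: a chain `I` with a word `w` on top of `j : I`. The last letter of `w` is the label
of the node; a node with the empty word is a point of the chain. -/
structure Nd (I : Type) (next : I → I) (col : I → Bool) : Type where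
  w : List Lbl
  j : I

variable {I : Type} {next : I → I} {col : I → Bool}

namespace Nd

theorem ext' {x y : Nd I next col} (h1 : x.w = y.w) (h2 : x.j = y.j) : x = y := by
  cases x; cases y; simp_all

/-- The parent of a node: delete the last letter; the parent of a point of the chain is the next
point of the chain. -/
def par (x : Nd I next col) : Nd I next col :=
  if x.w = [] then ⟨[], next x.j⟩ else ⟨x.w.dropLast, x.j⟩

/-- The child with label `l`. -/
def chd (l : Lbl) (x : Nd I next col) : Nd I next col := ⟨x.w ++ [l], x.j⟩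

/-- The colour of a node: the colour of its label; `col j` for a point of the chain. -/
def clr (x : Nd I next col) : Bool :=
  match x.w.getLast? with
  | none => col x.j
  | some l => l.1

/-- The operation `c`: the identity for the nodes of the first colour, the parent for the nodes of
the second colour. -/
def cop (x : Nd I next col) : Nd I next col := if x.clr = true then x else x.par

end Nd

/-- Interpretation of the symbols. -/
def fm : ∀ {n : ℕ}, Fn n → (Fin n → Nd I next col) → Nd I next col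
  | _, .t, x => (x 0).par
  | _, .c, x => (x 0).cop
  | _, .s l, x => (x 0).chd l

instance : L.Structure (Nd I next col) where
  funMap := fun f x => fm f x
  RelMap := fun r _ => r.elim

/-! ### Formulas use finitely many labels -/

/-- Index bound of a symbol. -/
def idx : ∀ {n : ℕ}, Fn n → ℕ
  | _, .t => 0
  | _, .c => 0
  | _, .s l => l.2 + 1

/-- Index bound of a term. -/
def tb {α : Type} : L.Term α → ℕ
  | .var _ => 0
  | .func (l := n) f ts => max (idx (n := n) f) (Finset.univ.sup fun i => tb (ts i))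

/-- Index bound of a formula. -/
def fb {α : Type} : ∀ {n : ℕ}, L.BoundedFormula α n → ℕ
  | _, .falsum => 0
  | _, .equal t1 t2 => max (tb t1) (tb t2)
  | _, .rel _ _ => 0
  | _, .imp f g => max (fb f) (fb g)
  | _, .all f => fb f

theorem term_comm {M : Type} [L.Structure M] (K : ℕ) (σ : M ≃ M)
    (hσ : ∀ (n : ℕ) (f : L.Functions n), idx (n := n) f ≤ K → ∀ x : Fin n → M,
      σ (Structure.funMap f x) = Structure.funMap f (σ ∘ x)) {α : Type} (u : L.Term α)
    (hu : tb u ≤ K) (v : α → M) : σ (u.realize v) = u.realize (σ ∘ v) := by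
  induction u with
  | var a => rfl
  | @func n f ts ih =>
    simp only [tb, max_le_iff, Finset.sup_le_iff] at hu
    simp only [Term.realize_func]
    rw [hσ n f hu.1]
    congr 1
    funext i
    exact ih i (hu.2 i (Finset.mem_univ i))

theorem form_comm {M : Type} [L.Structure M] (K : ℕ) (σ : M ≃ M)
    (hσ : ∀ (n : ℕ) (f : L.Functions n), idx (n := n) f ≤ K → ∀ x : Fin n → M,
      σ (Structure.funMap f x) = Structure.funMap f (σ ∘ x)) {α : Type} {n : ℕ}
    (φ : L.BoundedFormula α n) (hφ : fb φ ≤ K) (v : α → M) (xs : Fin n → M) :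
    φ.Realize v xs ↔ φ.Realize (σ ∘ v) (σ ∘ xs) := by
  induction φ with
  | falsum => exact Iff.rfl
  | equal t1 t2 =>
    simp only [fb, max_le_iff] at hφ
    simp only [BoundedFormula.Realize]
    have e : Sum.elim (σ ∘ v) (σ ∘ xs) = σ ∘ (Sum.elim v xs) := by
      funext i; rcases i with i | i <;> rfl
    rw [e, ← term_comm K σ hσ t1 hφ.1, ← term_comm K σ hσ t2 hφ.2]
    exact σ.injective.eq_iff.symm
  | rel R ts => exact R.elim
  | imp f g ih1 ih2 =>
    simp only [fb, max_le_iff] at hφ
    simp only [BoundedFormula.realize_imp]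
    rw [ih1 hφ.1, ih2 hφ.2]
  | all f ih =>
    simp only [fb] at hφ
    simp only [BoundedFormula.realize_all]
    constructor
    · intro h y
      have := (ih hφ (Fin.snoc xs (σ.symm y))).1 (h _)
      rwa [Fin.comp_snoc, Equiv.apply_symm_apply] at this
    · intro h y
      rw [ih hφ, Fin.comp_snoc]
      exact h _

/-! ### The shift is elementary -/

/-- The swap of the nodes above the point `0` of the chain with the nodes above the child with
label `l` of the point `1`. -/
def sw {col : ℕ → Bool} (l : Lbl) (x : Nd ℕ Nat.succ col) : Nd ℕ Nat.succ col :=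
  match x.j, x.w with
  | 0, w => ⟨l :: w, 1⟩
  | 1, [] => ⟨[], 1⟩
  | 1, l' :: w => if l' = l then ⟨w, 0⟩ else ⟨l' :: w, 1⟩
  | (j + 2), w => ⟨w, j + 2⟩

theorem sw_zero {col : ℕ → Bool} (l : Lbl) (w : List Lbl) :
    sw l (⟨w, 0⟩ : Nd ℕ Nat.succ col) = ⟨l :: w, 1⟩ := rfl

theorem sw_one_nil {col : ℕ → Bool} (l : Lbl) :
    sw l (⟨[], 1⟩ : Nd ℕ Nat.succ col) = ⟨[], 1⟩ := rfl

theorem sw_one_same {col : ℕ → Bool} (l : Lbl) (w : List Lbl) :
    sw l (⟨l :: w, 1⟩ : Nd ℕ Nat.succ col) = ⟨w, 0⟩ := by simp [sw]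

theorem sw_one_ne {col : ℕ → Bool} (l l' : Lbl) (h : l' ≠ l) (w : List Lbl) :
    sw l (⟨l' :: w, 1⟩ : Nd ℕ Nat.succ col) = ⟨l' :: w, 1⟩ := by simp [sw, h]

theorem sw_two {col : ℕ → Bool} (l : Lbl) (w : List Lbl) (j : ℕ) :
    sw l (⟨w, j + 2⟩ : Nd ℕ Nat.succ col) = ⟨w, j + 2⟩ := rfl

/-- Case distinction for nodes, adapted to the swap. -/
theorem nd_cases {col : ℕ → Bool} (l : Lbl) {P : Nd ℕ Nat.succ col → Prop}
    (h0 : ∀ w, P ⟨w, 0⟩) (h1 : P ⟨[], 1⟩) (h2 : ∀ w, P ⟨l :: w, 1⟩)
    (h3 : ∀ l' w, l' ≠ l → P ⟨l' :: w, 1⟩) (h4 : ∀ w j, P ⟨w, j + 2⟩) (x : Nd ℕ Nat.succ col) :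
    P x := by
  obtain ⟨w, j⟩ := x
  match j, w with
  | 0, w => exact h0 w
  | 1, [] => exact h1
  | 1, l' :: w =>
    by_cases e : l' = l
    · subst e; exact h2 w
    · exact h3 l' w e
  | (j + 2), w => exact h4 w j

theorem sw_sw {col : ℕ → Bool} (l : Lbl) (x : Nd ℕ Nat.succ col) : sw l (sw l x) = x := by
  refine nd_cases l (P := fun x => sw l (sw l x) = x) ?_ ?_ ?_ ?_ ?_ x
  · intro w; rw [sw_zero, sw_one_same]
  · rfl
  · intro w; rw [sw_one_same, sw_zero]
  · intro l' w h; rw [sw_one_ne _ _ h, sw_one_ne _ _ h]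
  · intro w j; rfl

/-- The swap as a bijection. -/
def swE {col : ℕ → Bool} (l : Lbl) : Nd ℕ Nat.succ col ≃ Nd ℕ Nat.succ col :=
  ⟨sw l, sw l, sw_sw l, sw_sw l⟩

theorem par_nil {col : ℕ → Bool} (j : ℕ) : (⟨[], j⟩ : Nd ℕ Nat.succ col).par = ⟨[], j + 1⟩ := by
  simp [Nd.par]

theorem par_ne {col : ℕ → Bool} (w : List Lbl) (hw : w ≠ []) (j : ℕ) :
    (⟨w, j⟩ : Nd ℕ Nat.succ col).par = ⟨w.dropLast, j⟩ := by
  simp [Nd.par, hw]

theorem par_sw {col : ℕ → Bool} (l : Lbl) (x : Nd ℕ Nat.succ col) :
    sw l x.par = (sw l x).par := by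
  refine nd_cases l (P := fun x => sw l x.par = (sw l x).par) ?_ ?_ ?_ ?_ ?_ x
  · intro w
    by_cases hw : w = []
    · subst hw
      rw [par_nil, sw_zero, par_ne _ (by simp)]
      rfl
    · rw [par_ne _ hw, sw_zero, sw_zero, par_ne _ (by simp), List.dropLast_cons_of_ne_nil hw]
  · rw [par_nil, sw_two, sw_one_nil, par_nil]
  · intro w
    by_cases hw : w = []
    · subst hw
      rw [par_ne _ (by simp), sw_one_same, par_nil]
      rfl
    · rw [par_ne _ (by simp), List.dropLast_cons_of_ne_nil hw, sw_one_same, sw_one_same,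
        par_ne _ hw]
  · intro l' w h
    by_cases hw : w = []
    · subst hw
      rw [par_ne _ (by simp), sw_one_ne _ _ h, par_ne _ (by simp)]
      rfl
    · rw [par_ne _ (by simp), List.dropLast_cons_of_ne_nil hw, sw_one_ne _ _ h, sw_one_ne _ _ h,
        par_ne _ (by simp), List.dropLast_cons_of_ne_nil hw]
  · intro w j
    by_cases hw : w = []
    · subst hw
      rw [par_nil, show j + 2 + 1 = (j + 1) + 2 by ring, sw_two, sw_two, par_nil]
    · rw [par_ne _ hw, sw_two, sw_two, par_ne _ hw]

theorem chd_sw {col : ℕ → Bool} (l k : Lbl) (h : k ≠ l) (x : Nd ℕ Nat.succ col) :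
    sw l (x.chd k) = (sw l x).chd k := by
  refine nd_cases l (P := fun x => sw l (x.chd k) = (sw l x).chd k) ?_ ?_ ?_ ?_ ?_ x
  · intro w; simp [Nd.chd, sw_zero]
  · simp only [Nd.chd, List.nil_append, sw_one_nil]
    rw [sw_one_ne _ _ h]
  · intro w
    simp only [Nd.chd, List.cons_append, sw_one_same]
  · intro l' w h'
    simp only [Nd.chd, List.cons_append, sw_one_ne _ _ h']
  · intro w j
    simp only [Nd.chd, sw_two]

theorem clr_cons {I : Type} {next : I → I} {col : I → Bool} (a : Lbl) (w : List Lbl) (j : I) :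
    (⟨a :: w, j⟩ : Nd I next col).clr = ((a :: w).getLast (List.cons_ne_nil _ _)).1 := by
  unfold Nd.clr
  rw [List.getLast?_eq_getLast_of_ne_nil (List.cons_ne_nil _ _)]

theorem clr_sw {col : ℕ → Bool} (l : Lbl) (hl : l.1 = col 0) (x : Nd ℕ Nat.succ col) :
    (sw l x).clr = x.clr := by
  refine nd_cases l (P := fun x => (sw l x).clr = x.clr) ?_ ?_ ?_ ?_ ?_ x
  · intro w
    rw [sw_zero]
    cases w with
    | nil => simp [Nd.clr, hl]
    | cons a w => rw [clr_cons, clr_cons, List.getLast_cons (List.cons_ne_nil _ _)]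
  · rfl
  · intro w
    rw [sw_one_same]
    cases w with
    | nil => simp [Nd.clr, hl]
    | cons a w => rw [clr_cons, clr_cons, List.getLast_cons (List.cons_ne_nil _ _)]
  · intro l' w h; rw [sw_one_ne _ _ h]
  · intro w j; rfl

theorem swE_comm {col : ℕ → Bool} (l : Lbl) (hl : l.1 = col 0) (K : ℕ) (hK : K ≤ l.2) (n : ℕ)
    (f : L.Functions n) (hf : idx (n := n) f ≤ K) (x : Fin n → Nd ℕ Nat.succ col) :
    swE l (Structure.funMap f x) = Structure.funMap f (swE l ∘ x) := by
  cases f with
  | t => exact par_sw l (x 0)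
  | c =>
    change sw l (x 0).cop = (sw l (x 0)).cop
    unfold Nd.cop
    rw [clr_sw l hl]
    by_cases h : (x 0).clr = true
    · rw [if_pos h, if_pos h]
    · rw [if_neg h, if_neg h, par_sw]
  | s k =>
    refine chd_sw l k ?_ (x 0)
    rintro rfl
    simp only [idx] at hf
    omega

/-- The shift along the chain. -/
def sh (col : ℕ → Bool) : Nd ℕ Nat.succ (fun j => col (j + 1)) ↪[L] Nd ℕ Nat.succ col where
  toFun x := ⟨x.w, x.j + 1⟩
  inj' := by
    rintro ⟨w, j⟩ ⟨w', j'⟩ h
    simp only [Nd.mk.injEq, add_left_inj] at h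
    obtain ⟨rfl, rfl⟩ := h
    rfl
  map_fun' := by
    have hp : ∀ x : Nd ℕ Nat.succ (fun j => col (j + 1)),
        (⟨x.par.w, x.par.j + 1⟩ : Nd ℕ Nat.succ col) =
        (⟨x.w, x.j + 1⟩ : Nd ℕ Nat.succ col).par := by
      rintro ⟨w, j⟩
      by_cases hw : w = []
      · subst hw; rfl
      · simp [Nd.par, hw]
    intro n f x
    cases f with
    | t => exact hp (x 0)
    | c =>
      change (⟨(x 0).cop.w, (x 0).cop.j + 1⟩ : Nd ℕ Nat.succ col) =
        (⟨(x 0).w, (x 0).j + 1⟩ : Nd ℕ Nat.succ col).cop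
      have hc : (⟨(x 0).w, (x 0).j + 1⟩ : Nd ℕ Nat.succ col).clr = (x 0).clr := rfl
      unfold Nd.cop
      rw [hc]
      by_cases h : (x 0).clr = true
      · rw [if_pos h, if_pos h]
      · rw [if_neg h, if_neg h]; exact hp (x 0)
    | s l => rfl
  map_rel' := fun r _ => r.elim

/-- A bound for the numbers of the labels in a word. -/
def wb (w : List Lbl) : ℕ := (w.map fun l => l.2 + 1).sum

theorem lt_wb (w : List Lbl) (l : Lbl) (h : l ∈ w) : l.2 < wb w := by
  have : l.2 + 1 ≤ wb w := List.single_le_sum (by simp) _ (List.mem_map.2 ⟨l, h, rfl⟩)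
  omega

/-- The shift is an elementary embedding. -/
theorem sh_elementary (col : ℕ → Bool) {n : ℕ} (φ : L.Formula (Fin n))
    (x : Fin n → Nd ℕ Nat.succ (fun j => col (j + 1))) :
    φ.Realize (sh col ∘ x) ↔ φ.Realize x := by
  refine (sh col).isElementary_of_exists ?_ φ x
  intro n φ x a h
  obtain ⟨w, j⟩ := a
  cases j with
  | succ j => exact ⟨⟨w, j⟩, h⟩
  | zero =>
    set K : ℕ := fb φ + Finset.univ.sup (fun i => wb (x i).w) with hK
    have hcomm := swE_comm (col := col) (col 0, K) rfl K le_rfl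
    refine ⟨⟨(col 0, K) :: w, 0⟩, ?_⟩
    have h' := (form_comm K (swE (col := col) (col 0, K)) hcomm φ
      (Nat.le_add_right _ _) default _).1 h
    have e1 : (swE (col := col) (col 0, K) ∘ (default : Empty → Nd ℕ Nat.succ col)) = default :=
      Subsingleton.elim _ _
    rw [e1, Fin.comp_snoc] at h'
    have e2 : (swE (col := col) (col 0, K)) ∘ (sh col ∘ x) = sh col ∘ x := by
      funext i
      change sw (col 0, K) ⟨(x i).w, (x i).j + 1⟩ = ⟨(x i).w, (x i).j + 1⟩
      have hi : wb (x i).w ≤ K :=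
        (Finset.le_sup (f := fun i => wb (x i).w) (Finset.mem_univ i)).trans (Nat.le_add_left _ _)
      generalize (x i).j = j
      generalize (x i).w = w at hi
      match j, w with
      | 0, [] => rfl
      | 0, l' :: w =>
        refine sw_one_ne _ _ ?_ _
        rintro rfl
        have := lt_wb _ _ (List.mem_cons_self (a := ((col 0, K) : Lbl)) (l := w))
        simp only at this
        omega
      | (j + 1), w => rfl
    rw [e2] at h'
    exact h'

end Pool.Agent.R619.Tree
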