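import Pool.Agent.R619.Tree

set_option autoImplicit false

namespace Pool.Agent.R619.Tree

open FirstOrder FirstOrder.Language

/-- The tuples `a` of `A` and `b` of `B` have the same (complete) type. -/
def SameType (L : FirstOrder.Language.{0, 0}) {A B : Type} [L.Structure A] [L.Structure B]
    {n : ℕ} (a : Fin n → A) (b : Fin n → B) : Prop :=
  ∀ φ : L.Formula (Fin n), φ.Realize a ↔ φ.Realize b

/-- `A` and `B` are isotypic: they realise the same complete types of finite tuples. -/
def Isotypic (L : FirstOrder.Language.{0, 0}) (A B : Type) [L.Structure A] [L.Structure B] :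
    Prop :=
  ∀ n : ℕ, (∀ a : Fin n → A, ∃ b : Fin n → B, SameType L a b) ∧
    (∀ b : Fin n → B, ∃ a : Fin n → A, SameType L a b)

theorem nd_fg (col : ℕ → Bool) : Structure.FG L (Nd ℕ Nat.succ col) := by
  rw [Structure.fg_def, Substructure.fg_def]
  refine ⟨{⟨[], 0⟩}, Set.finite_singleton _, ?_⟩
  rw [eq_top_iff]
  have h0 : (⟨[], 0⟩ : Nd ℕ Nat.succ col) ∈ Substructure.closure L {(⟨[], 0⟩ : Nd ℕ Nat.succ col)} :=
    Substructure.subset_closure (Set.mem_singleton _)
  have h1 : ∀ j : ℕ, (⟨[], j⟩ : Nd ℕ Nat.succ col) ∈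
      Substructure.closure L {(⟨[], 0⟩ : Nd ℕ Nat.succ col)} := by
    intro j
    induction j with
    | zero => exact h0
    | succ j ih =>
      have := (Substructure.closure L {(⟨[], 0⟩ : Nd ℕ Nat.succ col)}).fun_mem (n := 1) Fn.t
        (fun _ => (⟨[], j⟩ : Nd ℕ Nat.succ col)) (fun _ => ih)
      exact this
  rintro ⟨w, j⟩ -
  induction w using List.reverseRecOn with
  | nil => exact h1 j
  | append_singleton w l ih =>
    exact (Substructure.closure L {(⟨[], 0⟩ : Nd ℕ Nat.succ col)}).fun_mem (n := 1) (Fn.s l)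
        (fun _ => (⟨w, j⟩ : Nd ℕ Nat.succ col)) (fun _ => ih)

end Pool.Agent.R619.Tree
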